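import Pool.Agent.Helper10.KC.Geom

/-!
# The code of a free diagonal group
-/

set_option autoImplicit false

namespace Pool.Agent.Helper10.KC

open MvPolynomial

variable {L N c n m : ℕ} [NeZero N] {e : Fin c → ℕ} {F : Fin c → MvPolynomial (Fin L) ℂ}
  {Γ : Subgroup (Fin L → ℂˣ)}

/-- `(h, s, z) ↦ h s⁻¹ z_Z`. -/
noncomputable def Phi (hΓ : ∀ h ∈ Γ, ∀ i, h i ^ N = 1) (Z : Finset (Fin L)) :
    (Γ × rootsOfUnity N ℂ × Tor L N) →* Tor L N where
  toFun g i := (⟨(g.1 : Fin L → ℂˣ) i, (mem_rootsOfUnity _ _).2 (hΓ _ g.1.2 i)⟩ :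
    rootsOfUnity N ℂ) * (g.2.1)⁻¹ * (if i ∈ Z then g.2.2 i else 1)
  map_one' := by
    funext i
    apply Subtype.ext
    split_ifs <;> simp
  map_mul' := by
    intro g g'
    funext i
    apply Subtype.ext
    simp only [Prod.fst_mul, Prod.snd_mul, Pi.mul_apply, Subgroup.coe_mul, mul_inv]
    split_ifs
    · simp only [Subgroup.coe_mul, Subgroup.coe_inv]
      ac_rfl
    · simp only [Subgroup.coe_inv, mul_one, Subgroup.coe_one]
      ac_rfl

lemma Phi_apply (hΓ : ∀ h ∈ Γ, ∀ i, h i ^ N = 1) (Z : Finset (Fin L))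
    (g : Γ × rootsOfUnity N ℂ × Tor L N) (i : Fin L) :
    (Phi hΓ Z g i : ℂˣ) = (g.1 : Fin L → ℂˣ) i * (g.2.1 : ℂˣ)⁻¹ *
      (if i ∈ Z then (g.2.2 i : ℂˣ) else 1) := by
  simp only [Phi, MonoidHom.coe_mk, OneHom.coe_mk, Subgroup.coe_mul, Subgroup.coe_inv]
  split_ifs <;> simp

/-- `(h, s, z) ↦ χ(h) s^{-m} ∏_{i ∈ Z} z_i^{v_i}`. -/
noncomputable def Chi (χ : Γ →* ℂˣ) (m : ℕ) (Z : Finset (Fin L)) (v : Fin L → ZMod N) :
    (Γ × rootsOfUnity N ℂ × Tor L N) →* ℂˣ where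
  toFun g := χ g.1 * ((g.2.1 : ℂˣ) ^ m)⁻¹ * ∏ i ∈ Z, (g.2.2 i : ℂˣ) ^ (v i).val
  map_one' := by simp
  map_mul' := by
    intro g g'
    simp only [Prod.fst_mul, Prod.snd_mul, Pi.mul_apply, Subgroup.coe_mul, mul_pow, map_mul,
      mul_inv, Finset.prod_mul_distrib]
    ac_rfl

lemma Chi_apply (χ : Γ →* ℂˣ) (m : ℕ) (Z : Finset (Fin L)) (v : Fin L → ZMod N)
    (g : Γ × rootsOfUnity N ℂ × Tor L N) :
    Chi χ m Z v g = χ g.1 * ((g.2.1 : ℂˣ) ^ m)⁻¹ * ∏ i ∈ Z, (g.2.2 i : ℂˣ) ^ (v i).val := rfl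

/-- Values of exponent vectors of sections can be prescribed on `n` coordinates. -/
lemma exists_val (hN : 2 ≤ N) (hL : L = n + c + 1) (hF : IsKummer N e F) (hΓ : IsFree N Γ F)
    {χ : Γ →* ℂˣ} (hχ : IsBundle Γ m χ) (Z : Finset (Fin L)) (hZ : Z.card ≤ n)
    (v : Fin L → ZMod N) : ∃ a : Fin L → ZMod N, (∀ i ∈ Z, a i = v i) ∧
      (∀ h : Γ, pw (h : Fin L → ℂˣ) a = χ h) ∧ ∑ i, a i = m := by
  classical
  obtain ⟨z, hz, -⟩ := exists_zeta (N := N)
  obtain ⟨a, ha⟩ := exists_ext (Phi hΓ.exponent Z) (Chi χ m Z v) (by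
    intro g hg
    rw [MonoidHom.mem_ker] at hg ⊢
    have hgi : ∀ i, (g.1 : Fin L → ℂˣ) i * (g.2.1 : ℂˣ)⁻¹ *
        (if i ∈ Z then (g.2.2 i : ℂˣ) else 1) = 1 := by
      intro i
      rw [← Phi_apply hΓ.exponent, hg]
      rfl
    obtain ⟨x, hx0, hx, hxZ⟩ := hF.exists_point hN hL Z hZ
    have hs : ∀ i, i ∉ Z → (g.1 : Fin L → ℂˣ) i = g.2.1 := by
      intro i hi
      have := hgi i
      rw [if_neg hi, mul_one, mul_inv_eq_one] at this
      exact this
    have hall := hΓ.free x hx0 hx g.1 g.1.2 ((g.2.1 : ℂˣ) : ℂ) (by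
      funext i
      by_cases hi : i ∈ Z
      · simp [act, hxZ i hi]
      · simp [act, hs i hi])
    have hall' : ∀ i, (g.1 : Fin L → ℂˣ) i = (g.2.1 : ℂˣ) := fun i => Units.ext (hall i)
    rw [Chi_apply, hχ g.1 _ hall', mul_inv_cancel, one_mul]
    refine Finset.prod_eq_one fun i hi => ?_
    have := hgi i
    rw [if_pos hi, hall' i, mul_inv_cancel, one_mul] at this
    rw [this, one_pow])
  refine ⟨a, ?_, ?_, ?_⟩
  · intro i hi
    have h1 := ha (1, 1, Pi.mulSingle i z)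
    rw [Chi_apply] at h1
    simp only [map_one, Subgroup.coe_one, one_pow, inv_one, mul_one, one_mul] at h1
    rw [Finset.prod_eq_single i] at h1
    · rw [pw, Finset.prod_eq_single i] at h1
      · rw [Phi_apply, if_pos hi] at h1
        simp only [Subgroup.coe_one, Pi.one_apply, inv_one, mul_one, one_mul,
          Pi.mulSingle_eq_same] at h1
        have h2 := eq_of_zeta_pow hz h1
        rw [ZMod.natCast_zmod_val, ZMod.natCast_zmod_val] at h2
        exact h2.symm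
      · intro j _ hj
        rw [Phi_apply]
        simp [Pi.mulSingle_eq_of_ne hj]
      · intro h; exact absurd (Finset.mem_univ _) h
    · intro j _ hj
      simp [Pi.mulSingle_eq_of_ne hj]
    · intro h; exact absurd hi h
  · intro h
    have h1 := ha (h, 1, 1)
    rw [Chi_apply] at h1
    simp only [Subgroup.coe_one, one_pow, inv_one, mul_one, Pi.one_apply,
      Finset.prod_const_one] at h1
    rw [h1]
    refine Finset.prod_congr rfl fun i _ => ?_
    simp only [Phi_apply]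
    simp
  · have h1 := ha (1, z, 1)
    rw [Chi_apply] at h1
    simp only [map_one, one_mul, Pi.one_apply, Subgroup.coe_one, one_pow,
      Finset.prod_const_one, mul_one] at h1
    have h2 : pw (fun i => (Phi hΓ.exponent Z (1, z, 1) i : ℂˣ)) a = ((z : ℂˣ) ^ wt a)⁻¹ := by
      rw [pw, wt, ← Finset.prod_pow_eq_pow_sum, ← Finset.prod_inv_distrib]
      refine Finset.prod_congr rfl fun i _ => ?_
      rw [Phi_apply]
      simp
    rw [h2, inv_inj] at h1
    have h3 := eq_of_zeta_pow hz h1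
    rw [natCast_wt] at h3
    exact h3.symm

/-- The code of `Γ`: exponent vectors of `Γ`-invariant Laurent monomials of degree `0`. -/
noncomputable def code (hΓ : ∀ h ∈ Γ, ∀ i, h i ^ N = 1) : AddSubgroup (Fin L → ZMod N) where
  carrier := {b | (∀ h ∈ Γ, pw h b = 1) ∧ ∑ i, b i = 0}
  zero_mem' := ⟨fun h _ => pw_zero h, by simp⟩
  add_mem' := by
    rintro a b ⟨h1, h2⟩ ⟨h3, h4⟩
    refine ⟨fun h hh => ?_, ?_⟩
    · rw [pw_add (hΓ h hh), h1 h hh, h3 h hh, one_mul]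
    · simp only [Pi.add_apply, Finset.sum_add_distrib, h2, h4, add_zero]
  neg_mem' := by
    rintro a ⟨h1, h2⟩
    refine ⟨fun h hh => ?_, ?_⟩
    · have := pw_add (hΓ h hh) a (-a)
      rw [add_neg_cancel, pw_zero, h1 h hh, one_mul] at this
      exact this.symm
    · simp only [Pi.neg_apply, Finset.sum_neg_distrib, h2, neg_zero]

lemma mem_code {hΓ : ∀ h ∈ Γ, ∀ i, h i ^ N = 1} {b : Fin L → ZMod N} :
    b ∈ code hΓ ↔ (∀ h ∈ Γ, pw h b = 1) ∧ ∑ i, b i = 0 := Iff.rfl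

lemma strength (hN : 2 ≤ N) (hL : L = n + c + 1) (hF : IsKummer N e F) (hΓ : IsFree N Γ F) :
    Strength (code hΓ.exponent) n := by
  intro Z hZ v
  obtain ⟨a, h1, h2, h3⟩ := exists_val (m := 0) (χ := 1) hN hL hF hΓ (fun h t _ => by simp) Z hZ v
  refine ⟨a, mem_code.2 ⟨fun h hh => ?_, ?_⟩, h1⟩
  · have := h2 ⟨h, hh⟩
    simpa using this
  · simpa using h3

/-- An element of the torus orthogonal to the code elements vanishing on `Z` is in `Γ` outside
`Z`, up to scalars. -/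
lemma exists_group (hΓ : ∀ h ∈ Γ, ∀ i, h i ^ N = 1) (Z : Finset (Fin L)) (θ : Tor L N)
    (h : ∀ b ∈ code hΓ, (∀ i ∈ Z, b i = 0) → pw (fun i => (θ i : ℂˣ)) b = 1) :
    ∃ h ∈ Γ, ∃ s : ℂˣ, ∀ i, i ∉ Z → (θ i : ℂˣ) = h i * s⁻¹ := by
  classical
  obtain ⟨z, hz, -⟩ := exists_zeta (N := N)
  obtain ⟨g, hg⟩ := mem_range_of_forall (Phi hΓ Z) θ (by
    intro a ha
    apply h a
    · rw [mem_code]
      refine ⟨fun h hh => ?_, ?_⟩
      · have h1 := ha (⟨h, hh⟩, 1, 1)
        rw [← h1]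
        refine Finset.prod_congr rfl fun i _ => ?_
        simp only [Phi_apply]
        simp
      · have h1 := ha (1, z, 1)
        have h2 : pw (fun i => (Phi hΓ Z (1, z, 1) i : ℂˣ)) a = ((z : ℂˣ) ^ wt a)⁻¹ := by
          rw [pw, wt, ← Finset.prod_pow_eq_pow_sum, ← Finset.prod_inv_distrib]
          refine Finset.prod_congr rfl fun i _ => ?_
          rw [Phi_apply]
          simp
        rw [h2, inv_eq_one] at h1
        have h3 := eq_of_zeta_pow hz (h1.trans (pow_zero _).symm)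
        rw [natCast_wt] at h3
        simpa using h3
    · intro i hi
      have h1 := ha (1, 1, Pi.mulSingle i z)
      rw [pw, Finset.prod_eq_single i] at h1
      · rw [Phi_apply, if_pos hi] at h1
        simp only [Subgroup.coe_one, Pi.one_apply, inv_one, mul_one, one_mul,
          Pi.mulSingle_eq_same] at h1
        have h2 := eq_of_zeta_pow hz (h1.trans (pow_zero _).symm)
        rw [ZMod.natCast_zmod_val] at h2
        simpa using h2
      · intro j _ hj
        rw [Phi_apply]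
        simp [Pi.mulSingle_eq_of_ne hj]
      · intro h; exact absurd (Finset.mem_univ _) h)
  refine ⟨g.1, g.1.2, g.2.1, fun i hi => ?_⟩
  rw [← hg, Phi_apply, if_neg hi, mul_one]

end Pool.Agent.Helper10.KC
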