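import Mathlib

/-!
# Cosets of codes of strength `n` over `ℤ/N`: weights
-/

set_option autoImplicit false

namespace Pool.Agent.Helper10.KC

open Finset

variable {L N n c m : ℕ} [NeZero N]

/-- The weight of a vector over `ℤ/N`: the sum of the representatives in `[0, N - 1]`. -/
def wt (a : Fin L → ZMod N) : ℕ := ∑ i, (a i).val

lemma natCast_wt (a : Fin L → ZMod N) : (wt a : ZMod N) = ∑ i, a i := by
  simp [wt]

/-- The subgroup `C` has strength `n`: the values of its elements on `n` coordinates are
arbitrary. -/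
def Strength (C : AddSubgroup (Fin L → ZMod N)) (n : ℕ) : Prop :=
  ∀ Z : Finset (Fin L), Z.card ≤ n → ∀ v : Fin L → ZMod N, ∃ a ∈ C, ∀ i ∈ Z, a i = v i

variable {C : AddSubgroup (Fin L → ZMod N)} {a0 : Fin L → ZMod N}

/-- Membership in the coset `a0 + C`, with zeros on `Z`. -/
def InC (C : AddSubgroup (Fin L → ZMod N)) (a0 : Fin L → ZMod N) (Z : Finset (Fin L))
    (a : Fin L → ZMod N) : Prop := a - a0 ∈ C ∧ ∀ i ∈ Z, a i = 0

lemma exists_inC (hC : Strength C n) {Z : Finset (Fin L)} (hZ : Z.card ≤ n)
    (v : Fin L → ZMod N) : ∃ a, a - a0 ∈ C ∧ ∀ i ∈ Z, a i = v i := by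
  obtain ⟨b, hb, hb'⟩ := hC Z hZ (v - a0)
  refine ⟨a0 + b, by simpa using hb, fun i hi => ?_⟩
  rw [Pi.add_apply, hb' i hi, Pi.sub_apply, add_sub_cancel]

lemma wt_le_of_zero {Z : Finset (Fin L)} {a : Fin L → ZMod N} (ha : ∀ i ∈ Z, a i = 0) :
    wt a ≤ (N - 1) * (L - Z.card) := by
  classical
  have h1 : wt a = ∑ i ∈ Zᶜ, (a i).val := by
    rw [wt]
    refine (Finset.sum_subset (Finset.subset_univ _) fun i _ hi => ?_).symm
    rw [Finset.mem_compl, not_not] at hi
    rw [ha i hi, ZMod.val_zero]
  rw [h1]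
  have h2 : ∑ i ∈ Zᶜ, (a i).val ≤ ∑ i ∈ Zᶜ, (N - 1) :=
    Finset.sum_le_sum fun i _ => Nat.le_sub_one_of_lt (ZMod.val_lt _)
  rw [Finset.sum_const, smul_eq_mul, Finset.card_compl, Fintype.card_fin, mul_comm] at h2
  exact h2

/-- Congruent weights: `wt a < m + N` implies `wt a ≤ m`. -/
lemma le_of_lt_add (hA : ∀ a, a - a0 ∈ C → (wt a : ZMod N) = m) {a : Fin L → ZMod N}
    (ha : a - a0 ∈ C) (h : wt a < m + N) : wt a ≤ m := by
  have h1 := hA a ha
  rw [ZMod.natCast_eq_natCast_iff] at h1
  by_contra hlt
  push Not at hlt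
  have h2 : N ∣ wt a - m := (Nat.modEq_iff_dvd' hlt.le).1 h1.symm
  have := Nat.le_of_dvd (by omega) h2
  omega

/-- Congruent weights: `wt a < m` implies `wt a + N ≤ m`. -/
lemma add_le_of_lt (hA : ∀ a, a - a0 ∈ C → (wt a : ZMod N) = m) {a : Fin L → ZMod N}
    (ha : a - a0 ∈ C) (h : wt a < m) : wt a + N ≤ m := by
  have h1 := hA a ha
  rw [ZMod.natCast_eq_natCast_iff] at h1
  have h2 : N ∣ m - wt a := (Nat.modEq_iff_dvd' h.le).1 h1
  have := Nat.le_of_dvd (by omega) h2
  omega

lemma dvd_sub (hA : ∀ a, a - a0 ∈ C → (wt a : ZMod N) = m) {a : Fin L → ZMod N}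
    (ha : a - a0 ∈ C) (h : wt a ≤ m) : N ∣ m - wt a := by
  have h1 := hA a ha
  rw [ZMod.natCast_eq_natCast_iff] at h1
  exact (Nat.modEq_iff_dvd' h).1 h1

/-! ### Sums of residues -/

lemma sum_val : 2 * ∑ v : ZMod N, v.val = N * (N - 1) := by
  have h : ∑ v : ZMod N, v.val = ∑ i ∈ Finset.range N, i := by
    refine Finset.sum_bij (fun v _ => v.val) (fun v _ => Finset.mem_range.2 (ZMod.val_lt v))
      (fun v _ v' _ h => ZMod.val_injective N h) (fun i hi => ?_) (fun _ _ => rfl)
    exact ⟨(i : ZMod N), Finset.mem_univ _, ZMod.val_cast_of_lt (Finset.mem_range.1 hi)⟩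
  rw [h, mul_comm, Finset.sum_range_id_mul_two]

/-- A nonempty reflection-closed set of residues has a large sum of representatives. -/
lemma reflect_sum (T : Finset (ZMod N)) (hT : T.Nonempty)
    (hr : ∀ v ∈ T, ∀ v' ∈ T, 2 * v - v' ∈ T) : N * (T.card - 1) ≤ 2 * ∑ v ∈ T, v.val := by
  classical
  obtain ⟨v0, h0, hmin⟩ := Finset.exists_min_image T (fun v => v.val) hT
  have h1 : ∑ v ∈ T, (2 * v0 - v).val = ∑ v ∈ T, v.val := by
    refine Finset.sum_bij (fun v _ => 2 * v0 - v) (fun v hv => hr v0 h0 v hv)
      (fun v _ v' _ h => sub_right_injective h) (fun v hv => ?_) (fun _ _ => rfl)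
    exact ⟨2 * v0 - v, hr v0 h0 v hv, by ring⟩
  have h2 : ∀ v ∈ T.erase v0, N ≤ v.val + (2 * v0 - v).val := by
    intro v hv
    rw [Finset.mem_erase] at hv
    have hv1 := hmin v hv.2
    have hv2 := hmin _ (hr v0 h0 v hv.2)
    have hne : v0.val ≠ v.val := fun h => hv.1 (ZMod.val_injective N h).symm
    by_contra hlt
    push Not at hlt
    have h3 : ((v.val + (2 * v0 - v).val : ℕ) : ZMod N) = ((2 * v0.val : ℕ) : ZMod N) := by
      push_cast
      rw [ZMod.natCast_zmod_val, ZMod.natCast_zmod_val, ZMod.natCast_zmod_val]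
      ring
    rw [ZMod.natCast_eq_natCast_iff] at h3
    have h4 : 2 * v0.val < v.val + (2 * v0 - v).val := by omega
    have h5 : N ∣ v.val + (2 * v0 - v).val - 2 * v0.val := (Nat.modEq_iff_dvd' h4.le).1 h3.symm
    have := Nat.le_of_dvd (by omega) h5
    omega
  have h3 : ∑ v ∈ T.erase v0, N ≤ ∑ v ∈ T, (v.val + (2 * v0 - v).val) :=
    (Finset.sum_le_sum h2).trans (Finset.sum_le_sum_of_subset (Finset.erase_subset _ _))
  rw [Finset.sum_const, smul_eq_mul, Finset.card_erase_of_mem h0, Finset.sum_add_distrib, h1,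
    ← two_mul, mul_comm] at h3
  exact h3

/-! ### Uniform distribution of the coordinates -/

open Classical in
/-- The finite set of elements of the coset vanishing on `Z`. -/
noncomputable def AZ (C : AddSubgroup (Fin L → ZMod N)) (a0 : Fin L → ZMod N)
    (Z : Finset (Fin L)) : Finset (Fin L → ZMod N) :=
  Finset.univ.filter fun a => InC C a0 Z a

lemma mem_AZ {Z : Finset (Fin L)} {a : Fin L → ZMod N} : a ∈ AZ C a0 Z ↔ InC C a0 Z a := by
  simp [AZ]

lemma fiber_card (hC : Strength C n) {Z : Finset (Fin L)} {i : Fin L} (hi : i ∉ Z)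
    (hZ : Z.card + 1 ≤ n) (v v' : ZMod N) :
    ((AZ C a0 Z).filter fun a => a i = v).card = ((AZ C a0 Z).filter fun a => a i = v').card := by
  classical
  obtain ⟨b, hb, hb'⟩ := hC (insert i Z) (by rw [Finset.card_insert_of_notMem hi]; exact hZ)
    (fun j => if j = i then v' - v else 0)
  have hbi : b i = v' - v := by
    rw [hb' i (Finset.mem_insert_self _ _), if_pos rfl]
  have hbZ : ∀ j ∈ Z, b j = 0 := by
    intro j hj
    rw [hb' j (Finset.mem_insert_of_mem hj), if_neg (fun h : j = i => hi (h ▸ hj))]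
  refine Finset.card_bij (fun a _ => a + b) ?_ ?_ ?_
  · intro a ha
    rw [Finset.mem_filter, mem_AZ] at ha ⊢
    obtain ⟨⟨h1, h2⟩, h3⟩ := ha
    refine ⟨⟨?_, fun j hj => ?_⟩, ?_⟩
    · have : a + b - a0 = (a - a0) + b := by abel
      rw [this]
      exact C.add_mem h1 hb
    · rw [Pi.add_apply, h2 j hj, hbZ j hj, add_zero]
    · rw [Pi.add_apply, h3, hbi, add_sub_cancel]
  · intro a _ a' _ h
    exact add_right_cancel h
  · intro a ha
    rw [Finset.mem_filter, mem_AZ] at ha
    obtain ⟨⟨h1, h2⟩, h3⟩ := ha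
    refine ⟨a - b, ?_, by abel⟩
    rw [Finset.mem_filter, mem_AZ]
    refine ⟨⟨?_, fun j hj => ?_⟩, ?_⟩
    · have : a - b - a0 = (a - a0) - b := by abel
      rw [this]
      exact C.sub_mem h1 hb
    · rw [Pi.sub_apply, h2 j hj, hbZ j hj, sub_zero]
    · rw [Pi.sub_apply, h3, hbi, sub_sub_cancel]

open Classical in
/-- Sum over the elements of the coset satisfying a property which depends only on coordinate
`i`. -/
lemma sum_coord (hC : Strength C n) {Z : Finset (Fin L)} {i : Fin L} (hi : i ∉ Z)
    (hZ : Z.card + 1 ≤ n) (q : (Fin L → ZMod N) → Prop)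
    (hq : ∀ a ∈ AZ C a0 Z, ∀ a' ∈ AZ C a0 Z, a i = a' i → (q a ↔ q a')) :
    ∃ (K : ℕ) (S : Finset (ZMod N)),
      (∀ v, v ∈ S ↔ ∃ a ∈ AZ C a0 Z, a i = v ∧ q a) ∧
      ((AZ C a0 Z).filter q).card = K * S.card ∧
      ∑ a ∈ (AZ C a0 Z).filter q, (a i).val = K * ∑ v ∈ S, v.val := by
  refine ⟨((AZ C a0 Z).filter fun a => a i = 0).card,
    Finset.univ.filter fun v => ∃ a ∈ AZ C a0 Z, a i = v ∧ q a, fun v => by simp, ?_, ?_⟩
  · rw [Finset.card_eq_sum_card_fiberwise (f := fun a => a i)
      (t := Finset.univ.filter fun v => ∃ a ∈ AZ C a0 Z, a i = v ∧ q a) (by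
        intro a ha
        simp only [Finset.coe_filter, Set.mem_ofPred_eq, Finset.mem_univ, true_and] at ha ⊢
        exact ⟨a, ha.1, rfl, ha.2⟩)]
    rw [mul_comm, ← smul_eq_mul, ← Finset.sum_const]
    refine Finset.sum_congr rfl fun v hv => ?_
    rw [← fiber_card hC hi hZ v 0]
    congr 1
    ext a
    simp only [Finset.mem_filter, Finset.mem_univ, true_and] at hv ⊢
    obtain ⟨a', ha', hv', hq'⟩ := hv
    constructor
    · rintro ⟨⟨h1, h2⟩, h3⟩
      exact ⟨h1, h3⟩
    · rintro ⟨h1, h3⟩
      exact ⟨⟨h1, (hq a' ha' a h1 (hv'.trans h3.symm)).1 hq'⟩, h3⟩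
  · rw [← Finset.sum_fiberwise_of_maps_to (g := fun a => a i)
      (t := Finset.univ.filter fun v => ∃ a ∈ AZ C a0 Z, a i = v ∧ q a) (by
        intro a ha
        simp only [Finset.mem_filter, Finset.mem_univ, true_and] at ha ⊢
        exact ⟨a, ha.1, rfl, ha.2⟩)]
    rw [Finset.mul_sum]
    refine Finset.sum_congr rfl fun v hv => ?_
    have h1 : ∑ a ∈ ((AZ C a0 Z).filter q).filter (fun a => a i = v), (a i).val =
        ∑ a ∈ ((AZ C a0 Z).filter q).filter (fun a => a i = v), v.val :=
      Finset.sum_congr rfl fun a ha => by rw [(Finset.mem_filter.1 ha).2]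
    rw [h1, Finset.sum_const, smul_eq_mul]
    congr 1
    rw [← fiber_card hC hi hZ v 0]
    congr 1
    ext a
    simp only [Finset.mem_filter, Finset.mem_univ, true_and] at hv ⊢
    obtain ⟨a', ha', hv', hq'⟩ := hv
    constructor
    · rintro ⟨⟨h1, h2⟩, h3⟩
      exact ⟨h1, h3⟩
    · rintro ⟨h1, h3⟩
      exact ⟨⟨h1, (hq a' ha' a h1 (hv'.trans h3.symm)).1 hq'⟩, h3⟩

open Classical in
/-- Sum of the weights, from the sums of the coordinates. -/
lemma sum_wt {Z : Finset (Fin L)} (P : Finset (Fin L → ZMod N)) (hP : P ⊆ AZ C a0 Z) (B : ℕ)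
    (h : ∀ i, i ∉ Z → 2 * ∑ a ∈ P, (a i).val ≤ B) :
    2 * ∑ a ∈ P, wt a ≤ (L - Z.card) * B := by
  have h1 : ∀ a ∈ P, wt a = ∑ i ∈ Zᶜ, (a i).val := by
    intro a ha
    rw [wt]
    refine (Finset.sum_subset (Finset.subset_univ _) fun i _ hi => ?_).symm
    rw [Finset.mem_compl, not_not] at hi
    rw [(mem_AZ.1 (hP ha)).2 i hi, ZMod.val_zero]
  rw [Finset.sum_congr rfl h1, Finset.sum_comm, Finset.mul_sum]
  have h2 : ∑ i ∈ Zᶜ, 2 * ∑ a ∈ P, (a i).val ≤ ∑ i ∈ Zᶜ, B :=
    Finset.sum_le_sum fun i hi => h i (Finset.mem_compl.1 hi)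
  rwa [Finset.sum_const, smul_eq_mul, Finset.card_compl, Fintype.card_fin] at h2

/-- In a coset of a code of strength `n`, some element vanishing on a given set `Z` of `n - 1`
coordinates has weight at most `m - N`, as soon as the degree is large enough. -/
lemma exists_small (hC : Strength C n) (hL : L = n + c + 1)
    (hA : ∀ a, a - a0 ∈ C → (wt a : ZMod N) = m) (hm : (c + 2) * (N - 1) < 2 * m)
    {Z : Finset (Fin L)} (hZ : Z.card + 1 = n) : ∃ a, InC C a0 Z a ∧ wt a + N ≤ m := by
  classical
  by_contra hcon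
  push Not at hcon
  have hbig : ∀ a ∈ AZ C a0 Z, m ≤ wt a := by
    intro a ha
    rw [mem_AZ] at ha
    by_contra hlt
    push Not at hlt
    have := hcon a ha
    have := add_le_of_lt hA ha.1 hlt
    omega
  have hne : (AZ C a0 Z).Nonempty := by
    obtain ⟨a, h1, h2⟩ := exists_inC (a0 := a0) hC (show Z.card ≤ n by omega) 0
    exact ⟨a, mem_AZ.2 ⟨h1, fun i hi => by rw [h2 i hi]; rfl⟩⟩
  have h1 := sum_wt (C := C) (a0 := a0) (Z := Z) (AZ C a0 Z) subset_rfl
    ((AZ C a0 Z).card * (N - 1)) (by
      intro i hi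
      obtain ⟨K, S, hS, h1, h2⟩ := sum_coord hC hi (by omega) (a0 := a0) (fun _ => True)
        (fun _ _ _ _ _ => Iff.rfl)
      rw [Finset.filter_true] at h1 h2
      rw [h2, h1]
      have hSu : S = Finset.univ := by
        ext v
        simp only [hS, and_true, Finset.mem_univ, iff_true]
        obtain ⟨a, h1, h2⟩ := exists_inC (a0 := a0) hC
          (show (insert i Z).card ≤ n by rw [Finset.card_insert_of_notMem hi]; omega)
          (fun j => if j = i then v else 0)
        refine ⟨a, mem_AZ.2 ⟨h1, fun j hj => ?_⟩, ?_⟩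
        · rw [h2 j (Finset.mem_insert_of_mem hj), if_neg (fun h : j = i => hi (h ▸ hj))]
        · rw [h2 i (Finset.mem_insert_self _ _), if_pos rfl]
      rw [hSu, Finset.card_univ, ZMod.card]
      have := sum_val (N := N)
      calc 2 * (K * ∑ v : ZMod N, v.val) = K * (2 * ∑ v : ZMod N, v.val) := by ring
        _ = K * (N * (N - 1)) := by rw [this]
        _ ≤ K * N * (N - 1) := by rw [mul_assoc])
  have h2 : (AZ C a0 Z).card * m ≤ ∑ a ∈ AZ C a0 Z, wt a := by
    have := Finset.card_nsmul_le_sum (AZ C a0 Z) wt m hbig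
    simpa using this
  have hcard : 0 < (AZ C a0 Z).card := Finset.card_pos.2 hne
  have hLZ : L - Z.card = c + 2 := by omega
  rw [hLZ] at h1
  have h3 : (AZ C a0 Z).card * (2 * m) ≤ (AZ C a0 Z).card * ((c + 2) * (N - 1)) := by
    calc (AZ C a0 Z).card * (2 * m) = 2 * ((AZ C a0 Z).card * m) := by ring
      _ ≤ 2 * ∑ a ∈ AZ C a0 Z, wt a := by omega
      _ ≤ _ := h1
      _ = _ := by ring
  have := Nat.le_of_mul_le_mul_left h3 hcard
  omega

/-- A functional which is constant on the elements of weight `≤ m` of the coset vanishing on `Z`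
vanishes on the code elements vanishing on `Z`. -/
theorem functional {G : Type} [AddCommGroup G] (hC : Strength C n) (hN : 2 ≤ N)
    (hL : L = n + c + 1) (hn : 1 ≤ n)
    (hA : ∀ a, a - a0 ∈ C → (wt a : ZMod N) = m) (hm : N * c + 1 ≤ m + c)
    (ψ : (Fin L → ZMod N) →+ G) (ρ : G) (k : ℕ) :
    ∀ (Z : Finset (Fin L)), Z.card + k = n →
      (∀ a, InC C a0 Z a → wt a ≤ m → ψ a = ρ) → ∀ b ∈ C, (∀ i ∈ Z, b i = 0) → ψ b = 0 := by
  classical
  have hMm : (N - 1) * (c + 1) < m + N := by
    have : (N - 1) * (c + 1) + (c + 1) = N * (c + 1) := by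
      rw [← Nat.add_one_mul]
      congr 1
      omega
    have h2 : N * (c + 1) = N * c + N := by ring
    omega
  -- the case `|Z| = n`
  have hbase : ∀ (Z : Finset (Fin L)), Z.card = n →
      (∀ a, InC C a0 Z a → wt a ≤ m → ψ a = ρ) → ∀ b ∈ C, (∀ i ∈ Z, b i = 0) → ψ b = 0 := by
    intro Z hZ h b hb hbZ
    have hall : ∀ a, InC C a0 Z a → wt a ≤ m := by
      intro a ha
      refine le_of_lt_add hA ha.1 ?_
      have := wt_le_of_zero ha.2
      have hLZ : L - Z.card = c + 1 := by omega
      rw [hLZ] at this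
      omega
    obtain ⟨a, h1, h2⟩ := exists_inC (a0 := a0) hC (show Z.card ≤ n by omega) 0
    have ha : InC C a0 Z a := ⟨h1, fun i hi => by rw [h2 i hi]; rfl⟩
    have hab : InC C a0 Z (a + b) := by
      refine ⟨?_, fun i hi => ?_⟩
      · have : a + b - a0 = (a - a0) + b := by abel
        rw [this]
        exact C.add_mem h1 hb
      · rw [Pi.add_apply, ha.2 i hi, hbZ i hi, add_zero]
    have h3 := h a ha (hall a ha)
    have h4 := h _ hab (hall _ hab)
    rw [map_add, h3] at h4
    simpa using h4
  induction k with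
  | zero =>
    intro Z hZ
    exact hbase Z hZ
  | succ k ih =>
    intro Z hZ h b hb hbZ
    -- `ψ = 0` on the elements of `C` vanishing on `Z` and one more coordinate
    have hstep : ∀ i, i ∉ Z → ∀ b ∈ C, (∀ j ∈ Z, b j = 0) → b i = 0 → ψ b = 0 := by
      intro i hi b hb hbZ hbi
      refine ih (insert i Z) (by rw [Finset.card_insert_of_notMem hi]; omega) ?_ b hb ?_
      · intro a ha hwt
        exact h a ⟨ha.1, fun j hj => ha.2 j (Finset.mem_insert_of_mem hj)⟩ hwt
      · intro j hj
        rw [Finset.mem_insert] at hj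
        rcases hj with rfl | hj
        · exact hbi
        · exact hbZ j hj
    rcases Nat.eq_zero_or_pos k with hk | hk
    · -- `|Z| = n - 1`
      subst hk
      have hZ' : Z.card + 1 = n := by omega
      -- all elements of the coset have `ψ a = ρ`
      have hall : ∀ a, InC C a0 Z a → ψ a = ρ := by
        by_contra hcon
        push Not at hcon
        obtain ⟨a1, ha1, hψ1⟩ := hcon
        -- an element with `ψ = ρ`
        obtain ⟨i0, hi0⟩ : ∃ i, i ∉ Z := by
          by_contra hall
          push Not at hall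
          have : Z = Finset.univ := Finset.eq_univ_iff_forall.2 hall
          rw [this, Finset.card_univ, Fintype.card_fin] at hZ'
          omega
        obtain ⟨a2, h21, h22⟩ := exists_inC (a0 := a0) hC
          (show (insert i0 Z).card ≤ n by rw [Finset.card_insert_of_notMem hi0]; omega) 0
        have ha2 : InC C a0 (insert i0 Z) a2 := ⟨h21, fun i hi => by rw [h22 i hi]; rfl⟩
        have ha2' : InC C a0 Z a2 := ⟨h21, fun i hi => ha2.2 i (Finset.mem_insert_of_mem hi)⟩
        have hψ2 : ψ a2 = ρ := by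
          apply h a2 ha2'
          refine le_of_lt_add hA h21 ?_
          have := wt_le_of_zero ha2.2
          have hLZ : L - (insert i0 Z).card = c + 1 := by
            rw [Finset.card_insert_of_notMem hi0]; omega
          rw [hLZ] at this
          omega
        set P := (AZ C a0 Z).filter fun a => ψ a ≠ ρ with hP
        have hbig : ∀ a ∈ P, m + N ≤ wt a := by
          intro a ha
          rw [hP, Finset.mem_filter, mem_AZ] at ha
          by_contra hlt
          push Not at hlt
          exact ha.2 (h a ha.1 (le_of_lt_add hA ha.1.1 hlt))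
        have hne : P.Nonempty := ⟨a1, by rw [hP, Finset.mem_filter, mem_AZ]; exact ⟨ha1, hψ1⟩⟩
        have hsame : ∀ i, i ∉ Z → ∀ a ∈ AZ C a0 Z, ∀ a' ∈ AZ C a0 Z, a i = a' i → ψ a = ψ a' := by
          intro i hi a ha a' ha' haa
          rw [mem_AZ] at ha ha'
          have := hstep i hi (a - a') (by
            have : a - a' = (a - a0) - (a' - a0) := by abel
            rw [this]
            exact C.sub_mem ha.1 ha'.1) (fun j hj => by
              rw [Pi.sub_apply, ha.2 j hj, ha'.2 j hj, sub_zero]) (by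
              rw [Pi.sub_apply, haa, sub_self])
          rw [map_sub, sub_eq_zero] at this
          exact this
        have h1 := sum_wt (C := C) (a0 := a0) (Z := Z) P (Finset.filter_subset _ _)
          (P.card * N) (by
            intro i hi
            obtain ⟨K, S, hS, h1, h2⟩ := sum_coord hC hi (by omega) (a0 := a0)
              (fun a => ψ a ≠ ρ) (fun a ha a' ha' haa => by rw [hsame i hi a ha a' ha' haa])
            have e1 : P.card = K * S.card := by rw [hP]; convert h1
            have e2 : ∑ a ∈ P, (a i).val = K * ∑ v ∈ S, v.val := by rw [hP]; convert h2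
            rw [e2, e1]
            -- the complement of `S`
            have hT : N * (Sᶜ.card - 1) ≤ 2 * ∑ v ∈ Sᶜ, v.val := by
              have hex : ∀ v : ZMod N, ∃ a ∈ AZ C a0 Z, a i = v := by
                intro v
                obtain ⟨a, h1, h2⟩ := exists_inC (a0 := a0) hC
                  (show (insert i Z).card ≤ n by rw [Finset.card_insert_of_notMem hi]; omega)
                  (fun j => if j = i then v else 0)
                refine ⟨a, mem_AZ.2 ⟨h1, fun j hj => ?_⟩, ?_⟩
                · rw [h2 j (Finset.mem_insert_of_mem hj), if_neg (fun h : j = i => hi (h ▸ hj))]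
                · rw [h2 i (Finset.mem_insert_self _ _), if_pos rfl]
              have hmem : ∀ v, v ∈ Sᶜ ↔ ∀ a ∈ AZ C a0 Z, a i = v → ψ a = ρ := by
                intro v
                rw [Finset.mem_compl, hS]
                push Not
                exact Iff.rfl
              refine reflect_sum _ ⟨a2 i, ?_⟩ ?_
              · rw [hmem]
                intro a ha hai
                rw [hsame i hi a ha a2 (mem_AZ.2 ha2') hai, hψ2]
              · intro v hv v' hv'
                rw [hmem] at hv hv' ⊢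
                intro a ha hai
                obtain ⟨b, hb, hbi⟩ := hex v
                obtain ⟨b', hb', hbi'⟩ := hex v'
                have e1 := hv b hb hbi
                have e2 := hv' b' hb' hbi'
                have hb2 : b + b - b' ∈ AZ C a0 Z := by
                  rw [mem_AZ] at hb hb' ⊢
                  refine ⟨?_, fun j hj => ?_⟩
                  · have : b + b - b' - a0 = (b - a0) + (b - a0) - (b' - a0) := by abel
                    rw [this]
                    exact C.sub_mem (C.add_mem hb.1 hb.1) hb'.1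
                  · rw [Pi.sub_apply, Pi.add_apply, hb.2 j hj, hb'.2 j hj]
                    simp
                rw [hsame i hi a ha _ hb2 (by
                  rw [hai, Pi.sub_apply, Pi.add_apply, hbi, hbi']; ring), map_sub, map_add, e1, e2]
                abel
            have hsum : ∑ v ∈ S, v.val + ∑ v ∈ Sᶜ, v.val = ∑ v : ZMod N, v.val :=
              Finset.sum_add_sum_compl S _
            have hcs : S.card + Sᶜ.card = N := by
              rw [Finset.card_add_card_compl, ZMod.card]
            have hpos : 0 < Sᶜ.card := by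
              rw [Finset.card_pos]
              refine ⟨a2 i, ?_⟩
              rw [Finset.mem_compl, hS]
              rintro ⟨a, ha, hai, hψ⟩
              exact hψ (by rw [hsame i hi a ha a2 (mem_AZ.2 ha2') hai, hψ2])
            have hkey : 2 * ∑ v ∈ S, v.val ≤ S.card * N := by
              have h0 := sum_val (N := N)
              obtain ⟨t, ht⟩ : ∃ t, Sᶜ.card = t + 1 := ⟨Sᶜ.card - 1, by omega⟩
              obtain ⟨N', hN'⟩ : ∃ N', N = N' + 1 := ⟨N - 1, by omega⟩
              rw [ht, Nat.add_sub_cancel] at hT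
              have hs : S.card + t = N' := by omega
              have h5 : N * (N - 1) = N * S.card + N * t := by
                rw [← Nat.mul_add, hs, hN']
                simp
              have h6 : 2 * ∑ v ∈ S, v.val + 2 * ∑ v ∈ Sᶜ, v.val = N * (N - 1) := by
                rw [← Nat.mul_add, hsum, h0]
              have h7 : S.card * N = N * S.card := mul_comm _ _
              omega
            calc 2 * (K * ∑ v ∈ S, v.val) = K * (2 * ∑ v ∈ S, v.val) := by ring
              _ ≤ K * (S.card * N) := Nat.mul_le_mul_left _ hkey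
              _ = K * S.card * N := by ring)
        have h2 : P.card * (m + N) ≤ ∑ a ∈ P, wt a := by
          have := Finset.card_nsmul_le_sum P wt (m + N) hbig
          simpa using this
        have hcard : 0 < P.card := Finset.card_pos.2 hne
        have hLZ : L - Z.card = c + 2 := by omega
        rw [hLZ] at h1
        have h3 : P.card * (2 * (m + N)) ≤ P.card * ((c + 2) * N) := by
          calc P.card * (2 * (m + N)) = 2 * (P.card * (m + N)) := by ring
            _ ≤ 2 * ∑ a ∈ P, wt a := by omega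
            _ ≤ _ := h1
            _ = _ := by ring
        have h4 := Nat.le_of_mul_le_mul_left h3 hcard
        have h5 : (c + 2) * N = N * c + 2 * N := by ring
        have h6 : 2 * c ≤ N * c := Nat.mul_le_mul_right _ hN
        omega
      obtain ⟨a, h1, h2⟩ := exists_inC (a0 := a0) hC (show Z.card ≤ n by omega) 0
      have ha : InC C a0 Z a := ⟨h1, fun i hi => by rw [h2 i hi]; rfl⟩
      have hab : InC C a0 Z (a + b) := by
        refine ⟨?_, fun i hi => ?_⟩
        · have : a + b - a0 = (a - a0) + b := by abel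
          rw [this]
          exact C.add_mem h1 hb
        · rw [Pi.add_apply, ha.2 i hi, hbZ i hi, add_zero]
      have h3 := hall a ha
      have h4 := hall _ hab
      rw [map_add, h3] at h4
      simpa using h4
    · -- `|Z| ≤ n - 2`
      obtain ⟨i, hi⟩ : ∃ i, i ∉ Z := by
        by_contra hall
        push Not at hall
        have : Z = Finset.univ := Finset.eq_univ_iff_forall.2 hall
        rw [this, Finset.card_univ, Fintype.card_fin] at hZ
        omega
      obtain ⟨j, hj⟩ : ∃ j, j ∉ insert i Z := by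
        by_contra hall
        push Not at hall
        have h1 : insert i Z = Finset.univ := Finset.eq_univ_iff_forall.2 hall
        have h2 := Finset.card_insert_of_notMem hi
        rw [h1, Finset.card_univ, Fintype.card_fin] at h2
        omega
      obtain ⟨b', hb', hv⟩ := hC (insert j (insert i Z)) (by
        rw [Finset.card_insert_of_notMem hj, Finset.card_insert_of_notMem hi]; omega)
        (fun l => if l = i then b i else 0)
      rw [Finset.mem_insert, not_or] at hj
      have e1 : b' i = b i := by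
        rw [hv i (by simp), if_pos rfl]
      have e2 : b' j = 0 := by
        rw [hv j (by simp), if_neg hj.1]
      have e3 : ∀ l ∈ Z, b' l = 0 := by
        intro l hl
        rw [hv l (by simp [hl]), if_neg (fun h : l = i => hi (h ▸ hl))]
      have h1 := hstep j hj.2 b' hb' e3 e2
      have h2 := hstep i hi (b - b') (C.sub_mem hb hb') (fun l hl => by
        rw [Pi.sub_apply, hbZ l hl, e3 l hl, sub_zero]) (by rw [Pi.sub_apply, e1, sub_self])
      rw [map_sub, h1, sub_zero] at h2
      exact h2

end Pool.Agent.Helper10.KC
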