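import Mathlib

/-!
# Duality for the group `(μ_N)^L`
-/

set_option autoImplicit false

namespace Pool.Agent.Helper10.KC

variable {L N : ℕ} [NeZero N]

/-- The torus of `N`-torsion diagonal matrices. -/
abbrev Tor (L N : ℕ) : Type := Fin L → rootsOfUnity N ℂ

/-- The value `∏ h_i ^ a_i` of the character `a ∈ (ℤ/N)^L`. -/
def pw (h : Fin L → ℂˣ) (a : Fin L → ZMod N) : ℂˣ := ∏ i, h i ^ (a i).val

lemma pow_val_add {x : ℂˣ} (hx : x ^ N = 1) (a b : ZMod N) :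
    x ^ (a + b).val = x ^ a.val * x ^ b.val := by
  rw [ZMod.val_add, ← pow_add, ← pow_eq_pow_mod _ hx]

lemma pw_add {h : Fin L → ℂˣ} (hh : ∀ i, h i ^ N = 1) (a b : Fin L → ZMod N) :
    pw h (a + b) = pw h a * pw h b := by
  simp only [pw, Pi.add_apply]
  rw [← Finset.prod_mul_distrib]
  exact Finset.prod_congr rfl fun i _ => pow_val_add (hh i) _ _

lemma pw_zero (h : Fin L → ℂˣ) : pw h (0 : Fin L → ZMod N) = 1 := by
  simp [pw]

lemma pw_mul (h h' : Fin L → ℂˣ) (a : Fin L → ZMod N) : pw (h * h') a = pw h a * pw h' a := by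
  simp only [pw, Pi.mul_apply, mul_pow]
  exact Finset.prod_mul_distrib

/-- A primitive root of unity as an element of `rootsOfUnity N ℂ`. -/
lemma exists_zeta : ∃ z : rootsOfUnity N ℂ, IsPrimitiveRoot (z : ℂˣ) N ∧
    ∀ y : rootsOfUnity N ℂ, ∃ k : ℕ, y = z ^ k := by
  have h := Complex.isPrimitiveRoot_exp N (NeZero.ne N)
  have h2 := h.isUnit_unit' (NeZero.ne N)
  obtain ⟨ζ, hζ⟩ : ∃ ζ : ℂˣ, IsPrimitiveRoot ζ N := ⟨_, h2⟩
  refine ⟨⟨ζ, (mem_rootsOfUnity _ _).2 hζ.pow_eq_one⟩, hζ, ?_⟩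
  rintro ⟨y, hy⟩
  rw [mem_rootsOfUnity] at hy
  have hζ' : IsPrimitiveRoot (ζ : ℂ) N := IsPrimitiveRoot.coe_units_iff.2 hζ
  obtain ⟨k, _, hk⟩ := hζ'.eq_pow_of_pow_eq_one (ξ := (y : ℂ)) (by
    have := congrArg Units.val hy
    simpa using this)
  refine ⟨k, ?_⟩
  apply Subtype.ext
  apply Units.ext
  simpa using hk.symm

/-- Every character of `(μ_N)^L` is given by a vector `a ∈ (ℤ/N)^L`. -/
lemma exists_char (φ : Tor L N →* ℂˣ) : ∃ a : Fin L → ZMod N,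
    ∀ h : Tor L N, φ h = pw (fun i => (h i : ℂˣ)) a := by
  classical
  obtain ⟨z, hz, hz'⟩ := exists_zeta (N := N)
  have h1 : ∀ i, ∃ k : ℕ, k < N ∧ φ (Pi.mulSingle i z) = (z : ℂˣ) ^ k := by
    intro i
    have h2 : (φ (Pi.mulSingle i z)) ^ N = 1 := by
      rw [← map_pow, ← Pi.mulSingle_pow]
      have : z ^ N = 1 := by
        apply Subtype.ext
        simpa using hz.pow_eq_one
      rw [this, Pi.mulSingle_one, map_one]
    obtain ⟨k, hk⟩ := hz' ⟨φ (Pi.mulSingle i z), (mem_rootsOfUnity _ _).2 h2⟩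
    refine ⟨k % N, Nat.mod_lt _ (NeZero.pos N), ?_⟩
    have := congrArg Subtype.val hk
    simp only [SubmonoidClass.coe_pow] at this
    rw [this, ← pow_eq_pow_mod _ hz.pow_eq_one]
  choose k hk hk' using h1
  refine ⟨fun i => (k i : ZMod N), fun h => ?_⟩
  have h3 : h = ∏ i, Pi.mulSingle i (h i) := (Finset.univ_prod_mulSingle h).symm
  rw [h3, map_prod, ← h3, pw]
  refine Finset.prod_congr rfl fun i _ => ?_
  obtain ⟨l, hl⟩ := hz' (h i)
  rw [hl, Pi.mulSingle_pow, map_pow, hk' i, ZMod.val_cast_of_lt (hk i)]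
  simp only [SubmonoidClass.coe_pow]
  rw [← pow_mul, ← pow_mul, mul_comm]

lemma exists_ext {G : Type} [CommGroup G] (Φ : G →* Tor L N) (X : G →* ℂˣ)
    (h : Φ.ker ≤ X.ker) : ∃ a : Fin L → ZMod N, ∀ g, X g = pw (fun i => (Φ g i : ℂˣ)) a := by
  classical
  have hs : Function.Surjective Φ.rangeRestrict := Φ.rangeRestrict_surjective
  let Y : Φ.range →* ℂˣ := MonoidHom.liftOfSurjective Φ.rangeRestrict hs
    ⟨X, by rw [MonoidHom.ker_rangeRestrict]; exact h⟩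
  have hY : ∀ g, Y (Φ.rangeRestrict g) = X g := by
    intro g
    exact MonoidHom.liftOfRightInverse_comp_apply _ _ _ _ _
  obtain ⟨φ, hφ⟩ := MonoidHom.domRestrict_surjective (M := ℂ) Φ.range Y
  obtain ⟨a, ha⟩ := exists_char φ
  refine ⟨a, fun g => ?_⟩
  rw [← ha, ← hY, ← hφ]
  rfl

lemma mem_range_of_forall {G : Type} [CommGroup G] (Φ : G →* Tor L N) (θ : Tor L N)
    (h : ∀ a : Fin L → ZMod N, (∀ g, pw (fun i => (Φ g i : ℂˣ)) a = 1) →
      pw (fun i => (θ i : ℂˣ)) a = 1) : ∃ g, Φ g = θ := by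
  classical
  have : θ ∈ Φ.range := by
    rw [← CommGroup.forall_monoidHom_apply_eq_one_iff (M := ℂ)]
    intro φ hφ
    obtain ⟨a, ha⟩ := exists_char φ
    rw [ha]
    apply h
    intro g
    rw [← ha]
    exact hφ _ ⟨g, rfl⟩
  exact this

/-- Exponents of a primitive root determine residues. -/
lemma eq_of_zeta_pow {z : ℂˣ} (hz : IsPrimitiveRoot z N) {a b : ℕ} (h : z ^ a = z ^ b) :
    (a : ZMod N) = b := by
  rw [ZMod.natCast_eq_natCast_iff]
  have := hz.eq_orderOf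
  have h2 := pow_eq_pow_iff_modEq.1 h
  rwa [← this] at h2

end Pool.Agent.Helper10.KC
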