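import Pool.Agent.Helper10.KC.Comb
import Pool.Agent.Helper10.KC.Dual
import Pool.Agent.Helper10.FQ.Zero

/-!
# Free quotients of Kummer covers of complete intersections
-/

set_option autoImplicit false

namespace Pool.Agent.Helper10.KC

open MvPolynomial

variable {L N c : ℕ}

/-- The action of a diagonal matrix on `ℂ ^ L`. -/
def act (h : Fin L → ℂˣ) (x : Fin L → ℂ) : Fin L → ℂ := fun i => (h i : ℂ) * x i

/-- The value `dg_x(v) = ∑ i, (∂g/∂x_i)(x) v_i` of the differential of `g` at `x` on `v`. -/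
noncomputable def diffAt (g : MvPolynomial (Fin L) ℂ) (x v : Fin L → ℂ) : ℂ :=
  ∑ i, eval x (pderiv i g) * v i

/-- The Kummer cover `Y = {F_j(x_1^N, ..., x_L^N) = 0} ⊂ ℙ^(L-1)` of the complete intersection
`V = {F_j = 0}`, `deg F_j = e_j`, is smooth. -/
structure IsKummer (N : ℕ) (e : Fin c → ℕ) (F : Fin c → MvPolynomial (Fin L) ℂ) : Prop where
  degree_pos : ∀ j, 0 < e j
  homogeneous : ∀ j, (F j).IsHomogeneous (e j)
  smooth : ∀ x : Fin L → ℂ, x ≠ 0 → (∀ j, eval x (expand N (F j)) = 0) →
    LinearIndependent ℂ fun j => (fun i => eval x (pderiv i (expand N (F j))) : Fin L → ℂ)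

/-- The group `Γ` of diagonal matrices of exponent `N` acts on `Y`, and its image in
`PGL_L(ℂ)` acts freely. -/
structure IsFree (N : ℕ) (Γ : Subgroup (Fin L → ℂˣ)) (F : Fin c → MvPolynomial (Fin L) ℂ) :
    Prop where
  exponent : ∀ h ∈ Γ, ∀ i, h i ^ N = 1
  free : ∀ x : Fin L → ℂ, x ≠ 0 → (∀ j, eval x (expand N (F j)) = 0) →
    ∀ h ∈ Γ, ∀ t : ℂ, act h x = t • x → ∀ i, (h i : ℂ) = t

/-- `g` is a section of the line bundle `(m, χ)` on `X = Y / Γ`. -/
def IsSection (Γ : Subgroup (Fin L → ℂˣ)) (m : ℕ) (χ : Γ →* ℂˣ) (g : MvPolynomial (Fin L) ℂ) :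
    Prop :=
  g.IsHomogeneous m ∧ ∀ (h : Γ) (x : Fin L → ℂ), eval (act (h : Fin L → ℂˣ) x) g = χ h * eval x g

/-- The pair `(m, χ)` is a line bundle on `X`: scalar matrices `t ∈ Γ` act by `t ^ m`. -/
def IsBundle (Γ : Subgroup (Fin L → ℂˣ)) (m : ℕ) (χ : Γ →* ℂˣ) : Prop :=
  ∀ (h : Γ) (t : ℂˣ), (∀ i, (h : Fin L → ℂˣ) i = t) → χ h = t ^ m

/-- The line bundle `(m, χ)` on `X = Y / Γ` is very ample: its sections have no common zero,
separate the points of `X` (orbits of `ℂˣ × Γ` on the punctured cone of `Y`) and the tangent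
vectors of `X` (vectors `v` tangent to the cone at `x`, modulo the Euler vector `x`). -/
structure VeryAmple (N : ℕ) (Γ : Subgroup (Fin L → ℂˣ)) (F : Fin c → MvPolynomial (Fin L) ℂ)
    (m : ℕ) (χ : Γ →* ℂˣ) : Prop where
  base_point_free : ∀ x : Fin L → ℂ, x ≠ 0 → (∀ j, eval x (expand N (F j)) = 0) →
    ∃ g, IsSection Γ m χ g ∧ eval x g ≠ 0
  separates_points : ∀ x y : Fin L → ℂ, x ≠ 0 → y ≠ 0 →
    (∀ j, eval x (expand N (F j)) = 0) → (∀ j, eval y (expand N (F j)) = 0) →
    (∀ h ∈ Γ, ∀ t : ℂ, y ≠ t • act h x) →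
    ∃ g, IsSection Γ m χ g ∧ eval x g = 0 ∧ eval y g ≠ 0
  separates_tangents : ∀ x v : Fin L → ℂ, x ≠ 0 → (∀ j, eval x (expand N (F j)) = 0) →
    (∀ j, diffAt (expand N (F j)) x v = 0) → (∀ t : ℂ, v ≠ t • x) →
    ∃ g, IsSection Γ m χ g ∧ eval x g = 0 ∧ diffAt g x v ≠ 0

/-! ### Monomials -/

/-- The monomial with exponent vector `u`. -/
noncomputable def mon (u : Fin L → ℕ) : MvPolynomial (Fin L) ℂ := ∏ i, X i ^ u i

lemma eval_mon (x : Fin L → ℂ) (u : Fin L → ℕ) : eval x (mon u) = ∏ i, x i ^ u i := by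
  simp [mon, map_prod]

lemma mon_homogeneous (u : Fin L → ℕ) : (mon u).IsHomogeneous (∑ i, u i) := by
  have := IsHomogeneous.prod (R := ℂ) Finset.univ (fun i : Fin L => X i ^ u i) u
    (fun i _ => by simpa using (isHomogeneous_X ℂ i).pow (u i))
  exact this

lemma mon_isSection {Γ : Subgroup (Fin L → ℂˣ)} {m : ℕ} {χ : Γ →* ℂˣ} {u : Fin L → ℕ}
    (h1 : ∑ i, u i = m) (h2 : ∀ h : Γ, ∏ i, (h : Fin L → ℂˣ) i ^ u i = χ h) :
    IsSection Γ m χ (mon u) := by
  refine ⟨h1 ▸ mon_homogeneous u, fun h x => ?_⟩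
  rw [eval_mon, eval_mon, ← h2 h]
  simp only [act, mul_pow, Finset.prod_mul_distrib]
  push_cast
  rfl

lemma diffAt_mul (g h : MvPolynomial (Fin L) ℂ) (x v : Fin L → ℂ) :
    diffAt (g * h) x v = diffAt g x v * eval x h + eval x g * diffAt h x v := by
  simp only [diffAt, pderiv_mul, map_add, map_mul, add_mul, Finset.sum_add_distrib,
    Finset.sum_mul, Finset.mul_sum]
  congr 1
  · exact Finset.sum_congr rfl fun i _ => by ring
  · exact Finset.sum_congr rfl fun i _ => by ring

lemma diffAt_X (i : Fin L) (x v : Fin L → ℂ) : diffAt (X i) x v = v i := by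
  classical
  simp only [diffAt, pderiv_X]
  rw [Finset.sum_eq_single i]
  · simp
  · intro j _ hj
    simp [hj.symm]
  · simp

lemma diffAt_sub (g h : MvPolynomial (Fin L) ℂ) (x v : Fin L → ℂ) :
    diffAt (g - h) x v = diffAt g x v - diffAt h x v := by
  simp only [diffAt, map_sub, sub_mul, Finset.sum_sub_distrib]

lemma diffAt_C_mul (a : ℂ) (g : MvPolynomial (Fin L) ℂ) (x v : Fin L → ℂ) :
    diffAt (C a * g) x v = a * diffAt g x v := by
  simp only [diffAt, pderiv_C_mul, map_mul, eval_C, Finset.mul_sum, mul_assoc]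

lemma diffAt_pow (g : MvPolynomial (Fin L) ℂ) (n : ℕ) (x v : Fin L → ℂ) (ν : ℂ)
    (h : diffAt g x v = ν * eval x g) : diffAt (g ^ n) x v = n * ν * eval x (g ^ n) := by
  induction n with
  | zero => simp [diffAt]
  | succ n ih =>
    rw [pow_succ, diffAt_mul, ih, h, map_mul]
    push_cast
    ring

lemma diffAt_prod (s : Finset (Fin L)) (g : Fin L → MvPolynomial (Fin L) ℂ) (x v : Fin L → ℂ)
    (ν : Fin L → ℂ) (h : ∀ i ∈ s, diffAt (g i) x v = ν i * eval x (g i)) :
    diffAt (∏ i ∈ s, g i) x v = (∑ i ∈ s, ν i) * eval x (∏ i ∈ s, g i) := by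
  classical
  induction s using Finset.induction_on with
  | empty => simp [diffAt]
  | insert i s hi ih =>
    rw [Finset.prod_insert hi, Finset.sum_insert hi, diffAt_mul,
      ih fun j hj => h j (Finset.mem_insert_of_mem hj), h i (Finset.mem_insert_self _ _), map_mul]
    ring

/-- The logarithmic derivative of a monomial. -/
lemma diffAt_mon (x ν : Fin L → ℂ) (u : Fin L → ℕ) :
    diffAt (mon u) x (fun i => ν i * x i) = (∑ i, u i * ν i) * eval x (mon u) := by
  rw [mon]
  refine diffAt_prod _ _ _ _ (fun i => u i * ν i) fun i _ => ?_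
  exact diffAt_pow _ _ _ _ _ (by rw [diffAt_X, eval_X])

lemma mon_single_add (j : Fin L) (u : Fin L → ℕ) (hu : 1 ≤ u j) :
    mon u = X j * mon (fun i => if i = j then u i - 1 else u i) := by
  classical
  rw [mon, mon, ← Finset.mul_prod_erase Finset.univ _ (Finset.mem_univ j),
    ← Finset.mul_prod_erase Finset.univ (fun i => X i ^ (if i = j then u i - 1 else u i))
      (Finset.mem_univ j)]
  rw [if_pos rfl, ← mul_assoc, ← pow_succ', Nat.sub_add_cancel hu]
  congr 1
  refine Finset.prod_congr rfl fun i hi => ?_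
  rw [if_neg (Finset.ne_of_mem_erase hi)]

/-! ### Zeros of coordinates -/

lemma eval_expand_eq (x : Fin L → ℂ) (g : MvPolynomial (Fin L) ℂ) :
    eval x (expand N g) = eval (fun i => x i ^ N) g := by
  rw [eval_expand]
  rfl

/-- `d(F(x^N))_x(ν x) = N dF_z(ν z)`, `z = x^N`. -/
lemma diffAt_expand (x ν : Fin L → ℂ) (g : MvPolynomial (Fin L) ℂ) :
    diffAt (expand N g) x (fun i => ν i * x i) =
      N * diffAt g (fun i => x i ^ N) (fun i => ν i * x i ^ N) := by
  induction g using MvPolynomial.induction_on with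
  | C a => simp [diffAt]
  | add p q hp hq =>
    have h : ∀ (p q : MvPolynomial (Fin L) ℂ) (x v : Fin L → ℂ),
        diffAt (p + q) x v = diffAt p x v + diffAt q x v := by
      intro p q x v
      simp only [diffAt, map_add, add_mul, Finset.sum_add_distrib]
    rw [map_add, h, h, hp, hq]
    ring
  | mul_X p i hp =>
    rw [map_mul, diffAt_mul, diffAt_mul, hp, expand_X, diffAt_X, eval_expand_eq,
      diffAt_pow (X i) N x _ (ν i) (by rw [diffAt_X, eval_X])]
    simp only [map_pow, eval_X]
    ring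

lemma diffAt_euler {d : ℕ} {g : MvPolynomial (Fin L) ℂ} (hg : g.IsHomogeneous d)
    (x : Fin L → ℂ) : diffAt g x x = d * eval x g := by
  have h := congrArg (eval x) hg.sum_X_mul_pderiv
  simp only [map_sum, nsmul_eq_mul, map_mul, eval_X, map_natCast] at h
  rw [← h, diffAt]
  exact Finset.sum_congr rfl fun i _ => by ring

lemma diffAt_linear {g : MvPolynomial (Fin L) ℂ} (hg : g.IsHomogeneous 1)
    (x v : Fin L → ℂ) : diffAt g x v = eval v g := by
  have h := diffAt_euler hg v
  rw [Nat.cast_one, one_mul] at h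
  rw [← h, diffAt, diffAt]
  refine Finset.sum_congr rfl fun i _ => ?_
  congr 1
  have h1 : (pderiv i g).IsHomogeneous 0 := hg.pderiv
  rw [← totalDegree_zero_iff_isHomogeneous, totalDegree_eq_zero_iff_eq_C] at h1
  rw [h1]
  simp

variable {e : Fin c → ℕ} {F : Fin c → MvPolynomial (Fin L) ℂ} {n : ℕ}

/-- At most `n` coordinates vanish at a point of `Y`. -/
lemma IsKummer.card_zero_le (hN : 2 ≤ N) (hL : L = n + c + 1) (hF : IsKummer N e F)
    {x : Fin L → ℂ} (hx0 : x ≠ 0) (hx : ∀ j, eval x (expand N (F j)) = 0)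
    {Z : Finset (Fin L)} (hZ : ∀ i ∈ Z, x i = 0) : Z.card ≤ n := by
  classical
  have hpd : ∀ j i, x i = 0 → eval x (pderiv i (expand N (F j))) = 0 := by
    intro j i hi
    have h1 : ∀ g : MvPolynomial (Fin L) ℂ, eval x (pderiv i (expand N g)) = 0 := by
      intro g
      induction g using MvPolynomial.induction_on with
      | C a => simp
      | add p q hp hq => rw [map_add, map_add, map_add, hp, hq, add_zero]
      | mul_X p k hp =>
        rw [map_mul, pderiv_mul, map_add, map_mul, map_mul, hp, expand_X]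
        by_cases hk : k = i
        · subst hk
          rw [map_pow, eval_X, hi, zero_pow (by omega), mul_zero, zero_add, Derivation.leibniz_pow]
          simp only [map_nsmul, smul_eq_mul, map_mul, map_pow, eval_X, hi]
          rw [zero_pow (by omega)]
          simp
        · rw [Derivation.leibniz_pow, pderiv_X_of_ne hk]
          simp
    exact h1 _
  -- vectors in `ℂ^I`
  let I := {i : Fin L // i ∉ Z}
  let res : (Fin L → ℂ) →ₗ[ℂ] (I → ℂ) := LinearMap.funLeft ℂ ℂ Subtype.val
  have hli := hF.smooth x hx0 hx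
  have hli2 : LinearIndependent ℂ
      fun j => res (fun i => eval x (pderiv i (expand N (F j))) : Fin L → ℂ) := by
    rw [linearIndependent_iff'] at hli ⊢
    intro s g hg j hj
    refine hli s g ?_ j hj
    funext i
    by_cases hi : i ∈ Z
    · simp only [Finset.sum_apply, Pi.smul_apply, smul_eq_mul, Pi.zero_apply]
      exact Finset.sum_eq_zero fun j _ => by rw [hpd j i (hZ i hi), mul_zero]
    · have := congrFun hg ⟨i, hi⟩
      simpa [res, LinearMap.funLeft, Finset.sum_apply] using this
  -- they are in the kernel of `y ↦ ∑ y_i x_i`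
  let ev : (I → ℂ) →ₗ[ℂ] ℂ :=
    { toFun := fun y => ∑ i : I, y i * x i.1
      map_add' := by
        intro y z
        simp only [Pi.add_apply, add_mul, Finset.sum_add_distrib]
      map_smul' := by
        intro a y
        simp only [Pi.smul_apply, smul_eq_mul, RingHom.id_apply, Finset.mul_sum, mul_assoc] }
  have hker : ∀ j, res (fun i => eval x (pderiv i (expand N (F j))) : Fin L → ℂ) ∈
      LinearMap.ker ev := by
    intro j
    rw [LinearMap.mem_ker]
    have h1 : (expand N (F j)).IsHomogeneous (N * e j) := by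
      intro u hu
      have := (hF.homogeneous j)
      rw [← mem_support_iff] at hu
      have hs := support_expand_subset (p := N) (F j) hu
      rw [Finset.mem_image] at hs
      obtain ⟨u', hu', rfl⟩ := hs
      have h2 := this (mem_support_iff.1 hu')
      rw [map_nsmul, h2, smul_eq_mul]
    have h2 := diffAt_euler h1 x
    rw [hx j, mul_zero] at h2
    rw [← h2, diffAt]
    change ∑ i : I, eval x (pderiv i.1 (expand N (F j))) * x i.1 = _
    rw [← Finset.sum_subtype (Finset.univ.filter fun i => i ∉ Z) (by simp)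
      (fun i => eval x (pderiv i (expand N (F j))) * x i)]
    refine Finset.sum_subset (Finset.filter_subset _ _) fun i _ hi => ?_
    rw [Finset.mem_filter, not_and, not_not] at hi
    rw [hZ i (hi (Finset.mem_univ _)), mul_zero]
  have hev : ev ≠ 0 := by
    obtain ⟨i, hi⟩ := Function.ne_iff.1 hx0
    have hiZ : i ∉ Z := fun h => hi (hZ i h)
    intro h0
    have := LinearMap.congr_fun h0 (Pi.single ⟨i, hiZ⟩ 1)
    simp only [ev, LinearMap.coe_mk, AddHom.coe_mk, LinearMap.zero_apply] at this
    rw [Finset.sum_eq_single ⟨i, hiZ⟩] at this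
    · simp at this
      exact hi this
    · intro k _ hk
      rw [Pi.single_eq_of_ne hk, zero_mul]
    · intro h; exact absurd (Finset.mem_univ _) h
  have hli3 : LinearIndependent ℂ fun j => (⟨_, hker j⟩ : LinearMap.ker ev) := by
    exact LinearIndependent.of_comp (LinearMap.ker ev).subtype hli2
  have hcard := hli3.fintype_card_le_finrank
  rw [Fintype.card_fin] at hcard
  have hrn := LinearMap.finrank_range_add_finrank_ker ev
  have hsurj : LinearMap.range ev = ⊤ := LinearMap.range_eq_top.2 (LinearMap.surjective hev)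
  rw [hsurj, finrank_top, Module.finrank_self, Module.finrank_fintype_fun_eq_card] at hrn
  have hI : Fintype.card I = L - Z.card := by
    rw [Fintype.card_subtype_compl, Fintype.card_fin]
    simp
  have hZL : Z.card ≤ L := by
    have := Finset.card_le_univ Z
    rwa [Fintype.card_fin] at this
  omega

/-- For every set `Z` of at most `n` coordinates there is a point of `Y` where they vanish. -/
lemma IsKummer.exists_point (hN : 2 ≤ N) (hL : L = n + c + 1) (hF : IsKummer N e F)
    (Z : Finset (Fin L)) (hZ : Z.card ≤ n) :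
    ∃ x : Fin L → ℂ, x ≠ 0 ∧ (∀ j, eval x (expand N (F j)) = 0) ∧ ∀ i ∈ Z, x i = 0 := by
  classical
  let g : Fin c ⊕ Fin L → MvPolynomial (Fin L) ℂ := Sum.elim F X
  obtain ⟨z, hz0, hz⟩ := FQ.exists_common_zero (σ := Fin L)
    ((Finset.univ : Finset (Fin c)).disjSum Z) g (by
      intro k hk
      rcases k with j | i
      · simp only [g, Sum.elim_inl]
        have := diffAt_euler (hF.homogeneous j) 0
        have h0 : diffAt (F j) 0 (0 : Fin L → ℂ) = 0 := by simp [diffAt]
        rw [h0] at this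
        have he : (e j : ℂ) ≠ 0 := by exact_mod_cast (hF.degree_pos j).ne'
        exact (mul_eq_zero.1 this.symm).resolve_left he
      · simp [g]) (by
      rw [Finset.card_disjSum, Finset.card_univ, Fintype.card_fin, Nat.card_eq_fintype_card,
        Fintype.card_fin]
      omega)
  have hroot : ∀ i, ∃ w : ℂ, w ^ N = z i := fun i =>
    IsAlgClosed.exists_pow_nat_eq (z i) (by omega)
  choose x hx using hroot
  refine ⟨x, ?_, ?_, ?_⟩
  · intro h0
    apply hz0
    funext i
    rw [← hx i, h0, Pi.zero_apply, zero_pow (by omega)]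
  · intro j
    rw [eval_expand_eq]
    have h1 := hz (Sum.inl j) (by simp)
    simp only [g, Sum.elim_inl] at h1
    rw [← h1]
    congr 2
    funext i
    exact hx i
  · intro i hi
    have h1 := hz (Sum.inr i) (by simpa using hi)
    simp only [g, Sum.elim_inr, eval_X] at h1
    have h2 := hx i
    rw [h1] at h2
    exact pow_eq_zero_iff (by omega) |>.1 h2

end Pool.Agent.Helper10.KC
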