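import Pool.Agent.Helper10.KC.Code

/-!
# Free quotients of Kummer covers: very ampleness
-/

set_option autoImplicit false

namespace Pool.Agent.Helper10.KC

open MvPolynomial

variable {L N c n m : ℕ} [NeZero N] {e : Fin c → ℕ} {F : Fin c → MvPolynomial (Fin L) ℂ}
  {Γ : Subgroup (Fin L → ℂˣ)} {χ : Γ →* ℂˣ}

/-- `a` is the reduced exponent vector of a section of `(m, χ)`. -/
def Good (Γ : Subgroup (Fin L → ℂˣ)) (m : ℕ) (χ : Γ →* ℂˣ) (a : Fin L → ZMod N) : Prop :=
  (∀ h : Γ, pw (h : Fin L → ℂˣ) a = χ h) ∧ ∑ i, a i = m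

lemma good_iff (hΓ : ∀ h ∈ Γ, ∀ i, h i ^ N = 1) {a0 a : Fin L → ZMod N} (h0 : Good Γ m χ a0) :
    a - a0 ∈ code hΓ ↔ Good Γ m χ a := by
  have key : ∀ h ∈ Γ, pw h a = pw h (a - a0) * pw h a0 := by
    intro h hh
    rw [← pw_add (hΓ h hh), sub_add_cancel]
  rw [mem_code]
  constructor
  · rintro ⟨h1, h2⟩
    refine ⟨fun h => ?_, ?_⟩
    · rw [key h h.2, h1 h h.2, one_mul, h0.1]
    · simp only [Pi.sub_apply, Finset.sum_sub_distrib, sub_eq_zero] at h2
      rw [h2, h0.2]
  · rintro ⟨h1, h2⟩
    refine ⟨fun h hh => ?_, ?_⟩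
    · have h3 := key h hh
      have h4 := h1 ⟨h, hh⟩
      have h5 := h0.1 ⟨h, hh⟩
      simp only at h4 h5
      rw [h4, h5] at h3
      exact (mul_eq_right.1 h3.symm)
    · simp only [Pi.sub_apply, Finset.sum_sub_distrib, h2, h0.2, sub_self]

lemma Good.wt_cast {a : Fin L → ZMod N} (h : Good Γ m χ a) : (wt a : ZMod N) = m := by
  rw [natCast_wt, h.2]

lemma Good.isSection (hΓ : ∀ h ∈ Γ, ∀ i, h i ^ N = 1) {a : Fin L → ZMod N} (h : Good Γ m χ a)
    (k : Fin L → ℕ) (hk : wt a + N * ∑ i, k i = m) :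
    IsSection Γ m χ (mon fun i => (a i).val + N * k i) := by
  refine mon_isSection ?_ fun g => ?_
  · rw [Finset.sum_add_distrib, ← Finset.mul_sum]
    exact hk
  · rw [← h.1 g, pw]
    refine Finset.prod_congr rfl fun i _ => ?_
    rw [pow_add, pow_mul, hΓ g g.2 i, one_pow, mul_one]

lemma prod_ne_zero_of {x : Fin L → ℂ} {u : Fin L → ℕ} (h : ∀ i, x i = 0 → u i = 0) :
    ∏ i, x i ^ u i ≠ 0 := by
  refine Finset.prod_ne_zero_iff.2 fun i _ => ?_
  by_cases hi : x i = 0
  · rw [h i hi, pow_zero]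
    exact one_ne_zero
  · exact pow_ne_zero _ hi

open Classical in
/-- The zero set of a vector. -/
noncomputable def zset (x : Fin L → ℂ) : Finset (Fin L) := Finset.univ.filter fun i => x i = 0

lemma mem_zset {x : Fin L → ℂ} {i : Fin L} : i ∈ zset x ↔ x i = 0 := by
  simp [zset]

lemma sum_ge (hF : IsKummer N e F) : c ≤ ∑ j, e j := by
  have h := Finset.card_nsmul_le_sum (Finset.univ : Finset (Fin c)) e 1
    (fun j _ => hF.degree_pos j)
  simpa using h

lemma basic_ineq (hF : IsKummer N e F) (hm : N * ∑ j, e j + 1 ≤ m + c) : N * c + 1 ≤ m + c := by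
  have := Nat.mul_le_mul_left N (sum_ge hF)
  omega

lemma mul_ineq (hN : 2 ≤ N) (t : ℕ) : (N - 1) * t + t = N * t := by
  rw [← Nat.add_one_mul]
  congr 1
  omega

/-- Monomial sections divisible by a given variable. -/
lemma exists_section_mul (hN : 2 ≤ N) (hL : L = n + c + 1) (hF : IsKummer N e F)
    (hΓ : IsFree N Γ F) (hχ : IsBundle Γ m χ) (hm : N * ∑ j, e j + 1 ≤ m + c)
    {x : Fin L → ℂ} (hx0 : x ≠ 0) (hx : ∀ j, eval x (expand N (F j)) = 0) (i : Fin L) :
    ∃ g, IsSection Γ m χ (X i * g) ∧ eval x g ≠ 0 := by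
  classical
  have hm' := basic_ineq hF hm
  have hZn : (zset x).card ≤ n := hF.card_zero_le hN hL hx0 hx fun i hi => mem_zset.1 hi
  obtain ⟨l, hl⟩ := Function.ne_iff.1 hx0
  have e1 := mul_ineq hN (c + 1)
  have e2 := mul_ineq hN c
  have e3 : N * (c + 1) = N * c + N := by ring
  obtain ⟨a, k, ha, hk, hui, hz⟩ : ∃ (a : Fin L → ZMod N) (k : Fin L → ℕ), Good Γ m χ a ∧
      wt a + N * ∑ i, k i = m ∧ 1 ≤ (a i).val + N * k i ∧
      ∀ j, x j = 0 → (if j = i then (a j).val + N * k j - 1 else (a j).val + N * k j) = 0 := by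
    by_cases hcase : (insert i (zset x)).card ≤ n
    · obtain ⟨Z, hZ1, hZ2⟩ := Finset.exists_superset_card_eq hcase (by
        rw [Fintype.card_fin]; omega)
      obtain ⟨a, h1, h2, h3⟩ := exists_val hN hL hF hΓ hχ Z hZ2.le
        (fun j => if j = i then 1 else 0)
      have hai : (a i).val = 1 := by
        rw [h1 i (hZ1 (Finset.mem_insert_self _ _)), if_pos rfl, ZMod.val_one_eq_one_mod]
        exact Nat.mod_eq_of_lt (by omega)
      have hwt : wt a ≤ 1 + (N - 1) * (c + 1) := by
        have h4 : wt a = (a i).val + wt (Function.update a i 0) := by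
          rw [wt, wt, ← Finset.add_sum_erase Finset.univ _ (Finset.mem_univ i),
            ← Finset.add_sum_erase Finset.univ
              (fun j => (Function.update a i (0 : ZMod N) j).val) (Finset.mem_univ i)]
          simp only [Function.update_self, ZMod.val_zero, zero_add]
          congr 1
          refine Finset.sum_congr rfl fun j hj => ?_
          rw [Function.update_of_ne (Finset.ne_of_mem_erase hj)]
        have h5 := wt_le_of_zero (Z := Z) (a := Function.update a i 0) (by
          intro j hj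
          by_cases hji : j = i
          · rw [hji, Function.update_self]
          · rw [Function.update_of_ne hji, h1 j hj, if_neg hji])
        rw [hZ2] at h5
        have hLn : L - n = c + 1 := by omega
        rw [hLn] at h5
        omega
      have hg : Good Γ m χ a := ⟨h2, h3⟩
      have hle : wt a ≤ m := by
        have := hg.wt_cast
        rw [ZMod.natCast_eq_natCast_iff] at this
        by_contra hlt
        push Not at hlt
        have h6 : N ∣ wt a - m := (Nat.modEq_iff_dvd' hlt.le).1 this.symm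
        have := Nat.le_of_dvd (by omega) h6
        omega
      have hdvd : N ∣ m - wt a := by
        have := hg.wt_cast
        rw [ZMod.natCast_eq_natCast_iff] at this
        exact (Nat.modEq_iff_dvd' hle).1 this
      obtain ⟨q, hq⟩ := hdvd
      refine ⟨a, fun j => if j = l then q else 0, hg, ?_, ?_, ?_⟩
      · rw [Finset.sum_ite_eq' Finset.univ l, if_pos (Finset.mem_univ _), ← hq]
        omega
      · omega
      · intro j hj
        have hjl : j ≠ l := fun h => hl (h ▸ hj)
        beta_reduce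
        rw [if_neg hjl, mul_zero, add_zero]
        split_ifs with hji
        · rw [hji, hai]
        · rw [h1 j (hZ1 (Finset.mem_insert_of_mem (mem_zset.2 hj))), if_neg hji, ZMod.val_zero]
    · have hiZ : i ∉ zset x := by
        intro hi
        rw [Finset.insert_eq_of_mem hi] at hcase
        exact hcase hZn
      rw [Finset.card_insert_of_notMem hiZ] at hcase
      have hcard : (zset x).card = n := by omega
      obtain ⟨a, h1, h2, h3⟩ := exists_val hN hL hF hΓ hχ (zset x) hZn 0
      have hg : Good Γ m χ a := ⟨h2, h3⟩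
      have hwt := wt_le_of_zero (Z := zset x) (a := a) (fun i hi => h1 i hi)
      have hLn : L - (zset x).card = c + 1 := by omega
      rw [hLn] at hwt
      have hle : wt a ≤ m := by
        have := hg.wt_cast
        rw [ZMod.natCast_eq_natCast_iff] at this
        by_contra hlt
        push Not at hlt
        have h6 : N ∣ wt a - m := (Nat.modEq_iff_dvd' hlt.le).1 this.symm
        have := Nat.le_of_dvd (by omega) h6
        omega
      have hdvd : N ∣ m - wt a := by
        have := hg.wt_cast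
        rw [ZMod.natCast_eq_natCast_iff] at this
        exact (Nat.modEq_iff_dvd' hle).1 this
      obtain ⟨q, hq⟩ := hdvd
      refine ⟨a, fun j => if j = i then q else 0, hg, ?_, ?_, ?_⟩
      · rw [Finset.sum_ite_eq' Finset.univ i, if_pos (Finset.mem_univ _), ← hq]
        omega
      · beta_reduce
        rw [if_pos rfl]
        by_contra hlt
        push Not at hlt
        have h7 : (a i).val = 0 := by omega
        have h8 : a i = 0 := by rwa [ZMod.val_eq_zero] at h7
        have h9 := wt_le_of_zero (Z := insert i (zset x)) (a := a) (by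
          intro j hj
          rw [Finset.mem_insert] at hj
          rcases hj with rfl | hj
          · exact h8
          · exact h1 j hj)
        rw [Finset.card_insert_of_notMem hiZ] at h9
        have hLn : L - ((zset x).card + 1) = c := by omega
        rw [hLn] at h9
        have : N * q = 0 := by omega
        omega
      · intro j hj
        have hji : j ≠ i := fun h => hiZ (mem_zset.2 (h ▸ hj))
        beta_reduce
        rw [if_neg hji, if_neg hji, mul_zero, add_zero, h1 j (mem_zset.2 hj)]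
        exact ZMod.val_zero
  refine ⟨mon fun j => if j = i then (a j).val + N * k j - 1 else (a j).val + N * k j, ?_, ?_⟩
  · rw [← mon_single_add i (fun j => (a j).val + N * k j) hui]
    exact ha.isSection hΓ.exponent k hk
  · rw [eval_mon]
    exact prod_ne_zero_of hz

theorem bpf (hN : 2 ≤ N) (hL : L = n + c + 1) (hF : IsKummer N e F)
    (hΓ : IsFree N Γ F) (hχ : IsBundle Γ m χ) (hm : N * ∑ j, e j + 1 ≤ m + c)
    {x : Fin L → ℂ} (hx0 : x ≠ 0) (hx : ∀ j, eval x (expand N (F j)) = 0) :
    ∃ g, IsSection Γ m χ g ∧ eval x g ≠ 0 := by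
  obtain ⟨i, hi⟩ := Function.ne_iff.1 hx0
  obtain ⟨g, hg, hg'⟩ := exists_section_mul hN hL hF hΓ hχ hm hx0 hx i
  exact ⟨_, hg, by rw [map_mul, eval_X]; exact mul_ne_zero hi hg'⟩

/-- Either there is a section monomial with a factor `x_l^N`, `l` arbitrary, not vanishing outside
`Z`, or `V` is linear and `Z` has the maximal number `n` of elements. -/
lemma alpha_or_linear (hN : 2 ≤ N) (hL : L = n + c + 1) (hF : IsKummer N e F)
    (hΓ : IsFree N Γ F) (hχ : IsBundle Γ m χ) (hm : N * ∑ j, e j + 1 ≤ m + c)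
    (hE : 2 ≤ ∑ j, e j) (Z : Finset (Fin L)) (hZ : Z.card ≤ n) :
    (∃ a : Fin L → ZMod N, Good Γ m χ a ∧ (∀ i ∈ Z, a i = 0) ∧ wt a + N ≤ m) ∨
      (Z.card = n ∧ ∀ j, e j = 1) := by
  classical
  obtain ⟨a0, -, h01, h02⟩ := exists_val hN hL hF hΓ hχ ∅ (by simp) 0
  have h0 : Good Γ m χ a0 := ⟨h01, h02⟩
  have hA : ∀ a, a - a0 ∈ code hΓ.exponent → (wt a : ZMod N) = m := fun a ha =>
    ((good_iff hΓ.exponent h0).1 ha).wt_cast
  have hce := sum_ge hF
  rcases Nat.lt_or_ge Z.card n with hlt | hge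
  · left
    obtain ⟨Z', hZ1, hZ2⟩ := Finset.exists_superset_card_eq (show Z.card ≤ n - 1 by omega) (by
      rw [Fintype.card_fin]; omega)
    have hsm : (c + 2) * (N - 1) < 2 * m := by
      have e1 := mul_ineq hN (c + 2)
      have e2 : (c + 2) * (N - 1) = (N - 1) * (c + 2) := mul_comm _ _
      rcases Nat.lt_or_ge c 2 with hc | hc
      · have h1 : N * 2 ≤ N * ∑ j, e j := Nat.mul_le_mul_left _ hE
        have h2 : N * (c + 2) ≤ N * 3 := Nat.mul_le_mul_left _ (by omega)
        omega
      · have h1 : N * c ≤ N * ∑ j, e j := Nat.mul_le_mul_left _ hce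
        have h2 : N * (c + 2) ≤ N * (2 * c) := Nat.mul_le_mul_left _ (by omega)
        have h3 : N * (2 * c) = 2 * (N * c) := by ring
        -- 2 m ≥ 2 N c + 2 - 2 c
        have h4 : (N - 1) * (c + 2) ≤ (N - 1) * (2 * c) := Nat.mul_le_mul_left _ (by omega)
        have e3 := mul_ineq hN (2 * c)
        omega
    obtain ⟨a, ha, hwt⟩ := exists_small (strength hN hL hF hΓ) hL hA hsm
      (show Z'.card + 1 = n by omega)
    exact ⟨a, (good_iff hΓ.exponent h0).1 ha.1, fun i hi => ha.2 i (hZ1 hi), hwt⟩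
  · have hZn : Z.card = n := le_antisymm hZ hge
    obtain ⟨a, h1, h2, h3⟩ := exists_val hN hL hF hΓ hχ Z hZ 0
    have hg : Good Γ m χ a := ⟨h2, h3⟩
    by_cases hwt : wt a + N ≤ m
    · exact Or.inl ⟨a, hg, fun i hi => h1 i hi, hwt⟩
    · right
      refine ⟨hZn, ?_⟩
      have h4 : m ≤ wt a := by
        by_contra hlt
        push Not at hlt
        exact hwt (add_le_of_lt hA ((good_iff hΓ.exponent h0).2 hg) hlt)
      have h5 := wt_le_of_zero (Z := Z) (a := a) (fun i hi => h1 i hi)
      have hLn : L - Z.card = c + 1 := by omega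
      rw [hLn] at h5
      have e1 := mul_ineq hN (c + 1)
      have h6 : ∑ j, e j ≤ c := by
        by_contra hlt
        push Not at hlt
        have : N * (c + 1) ≤ N * ∑ j, e j := Nat.mul_le_mul_left _ hlt
        omega
      intro j
      by_contra hj
      have hj2 : 1 < e j := by
        have := hF.degree_pos j
        omega
      have : ∑ j : Fin c, 1 < ∑ j, e j := Finset.sum_lt_sum (fun j _ => hF.degree_pos j)
        ⟨j, Finset.mem_univ j, hj2⟩
      simp only [Finset.sum_const, Finset.card_univ, Fintype.card_fin, smul_eq_mul, mul_one]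
        at this
      omega

/-- In the linear case a point with `n` zero coordinates is determined by them. -/
lemma linear_unique (hN : 2 ≤ N) (hL : L = n + c + 1) (hF : IsKummer N e F)
    (he : ∀ j, e j = 1) {x : Fin L → ℂ} (hx0 : x ≠ 0)
    (hx : ∀ j, eval x (expand N (F j)) = 0) (hZ : (zset x).card = n) {w : Fin L → ℂ}
    (hw : ∀ j, eval w (F j) = 0) (hwZ : ∀ i, x i = 0 → w i = 0) :
    ∃ κ : ℂ, ∀ i, w i = κ * x i ^ N := by
  classical
  obtain ⟨i, hi⟩ := Function.ne_iff.1 hx0
  have hi : x i ≠ 0 := hi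
  refine ⟨w i / x i ^ N, ?_⟩
  by_contra hcon
  push Not at hcon
  set κ := w i / x i ^ N with hκ
  let z : Fin L → ℂ := fun k => w k - κ * x k ^ N
  have hz0 : z ≠ 0 := by
    obtain ⟨k, hk⟩ := hcon
    intro h0
    apply hk
    have := congrFun h0 k
    simp only [z, Pi.zero_apply] at this
    exact sub_eq_zero.1 this
  have hzi : z i = 0 := by
    simp only [z, hκ]
    rw [div_mul_cancel₀ _ (pow_ne_zero _ hi), sub_self]
  have hFz : ∀ j, eval z (F j) = 0 := by
    intro j
    have h1 : (F j).IsHomogeneous 1 := by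
      have := hF.homogeneous j
      rwa [he j] at this
    have h2 : eval w (F j) - κ * eval (fun k => x k ^ N) (F j) = 0 := by
      have := hx j
      rw [eval_expand_eq] at this
      rw [hw j, this, mul_zero, sub_zero]
    rw [← diffAt_linear h1 0, ← diffAt_linear h1 0 (fun k => x k ^ N)] at h2
    rw [← diffAt_linear h1 0, ← h2]
    simp only [diffAt, z, mul_sub, Finset.sum_sub_distrib, Finset.mul_sum]
    congr 1
    exact Finset.sum_congr rfl fun k _ => by ring
  have hroot : ∀ k, ∃ y : ℂ, y ^ N = z k := fun k =>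
    IsAlgClosed.exists_pow_nat_eq (z k) (by omega)
  choose y hy using hroot
  have hy0 : y ≠ 0 := by
    intro h0
    apply hz0
    funext k
    rw [← hy k, h0, Pi.zero_apply, zero_pow (by omega)]
  have hyF : ∀ j, eval y (expand N (F j)) = 0 := by
    intro j
    rw [eval_expand_eq, ← hFz j]
    congr 2
    funext k
    exact hy k
  have hyz : ∀ k, z k = 0 → y k = 0 := by
    intro k hk
    have := hy k
    rw [hk] at this
    exact (pow_eq_zero_iff (by omega)).1 this
  have hcard := hF.card_zero_le hN hL hy0 hyF (Z := insert i (zset x)) (by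
    intro k hk
    rw [Finset.mem_insert] at hk
    rcases hk with rfl | hk
    · exact hyz _ hzi
    · rw [mem_zset] at hk
      apply hyz
      simp only [z]
      rw [hwZ k hk, hk, zero_pow (by omega), mul_zero, sub_zero])
  rw [Finset.card_insert_of_notMem (fun h => hi (mem_zset.1 h)), hZ] at hcard
  omega

lemma IsSection.sub_C_mul {g g' : MvPolynomial (Fin L) ℂ} (hg : IsSection Γ m χ g)
    (hg' : IsSection Γ m χ g') (a : ℂ) : IsSection Γ m χ (g - C a * g') := by
  refine ⟨hg.1.sub (hg'.1.C_mul a), fun h x => ?_⟩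
  rw [map_sub, map_mul, eval_C, map_sub, map_mul, eval_C, hg.2, hg'.2]
  ring

theorem separates (hN : 2 ≤ N) (hL : L = n + c + 1) (hn : 1 ≤ n) (hF : IsKummer N e F)
    (hΓ : IsFree N Γ F) (hχ : IsBundle Γ m χ) (hm : N * ∑ j, e j + 1 ≤ m + c)
    (hE : 2 ≤ ∑ j, e j) {x y : Fin L → ℂ} (hx0 : x ≠ 0) (hy0 : y ≠ 0)
    (hx : ∀ j, eval x (expand N (F j)) = 0) (hy : ∀ j, eval y (expand N (F j)) = 0)
    (hxy : ∀ h ∈ Γ, ∀ t : ℂ, y ≠ t • act h x) :
    ∃ g, IsSection Γ m χ g ∧ eval x g = 0 ∧ eval y g ≠ 0 := by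
  classical
  by_contra hcon
  push Not at hcon
  obtain ⟨g0, hg0, hg0x⟩ := bpf hN hL hF hΓ hχ hm hx0 hx
  obtain ⟨lam, hlam⟩ : ∃ lam : ℂ, ∀ g, IsSection Γ m χ g → eval y g = lam * eval x g := by
    refine ⟨eval y g0 / eval x g0, fun g hg => ?_⟩
    have h1 := hcon _ (hg.sub_C_mul hg0 (eval x g / eval x g0)) (by
      rw [map_sub, map_mul, eval_C, div_mul_cancel₀ _ hg0x, sub_self])
    rw [map_sub, map_mul, eval_C, sub_eq_zero] at h1
    rw [h1]
    ring
  have hlam0 : lam ≠ 0 := by
    rintro rfl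
    obtain ⟨g1, hg1, hg1y⟩ := bpf hN hL hF hΓ hχ hm hy0 hy
    exact hg1y (by rw [hlam _ hg1, zero_mul])
  have hsupp : ∀ i, x i = 0 ↔ y i = 0 := by
    intro i
    constructor
    · intro hxi
      by_contra hi
      obtain ⟨g, hg, hg'⟩ := exists_section_mul hN hL hF hΓ hχ hm hy0 hy i
      have := hlam _ hg
      rw [map_mul, map_mul, eval_X, eval_X, hxi, zero_mul, mul_zero] at this
      exact mul_ne_zero hi hg' this
    · intro hyi
      by_contra hi
      obtain ⟨g, hg, hg'⟩ := exists_section_mul hN hL hF hΓ hχ hm hx0 hx i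
      have := hlam _ hg
      rw [map_mul, map_mul, eval_X, eval_X, hyi, zero_mul] at this
      exact mul_ne_zero hlam0 (mul_ne_zero hi hg') this.symm
  have hZn : (zset x).card ≤ n := hF.card_zero_le hN hL hx0 hx fun i hi => mem_zset.1 hi
  obtain ⟨i0, hi0⟩ := Function.ne_iff.1 hx0
  have hi0 : x i0 ≠ 0 := hi0
  have hyi0 : y i0 ≠ 0 := fun h => hi0 ((hsupp i0).2 h)
  -- the `N`-th powers are proportional
  obtain ⟨κ, hκ⟩ : ∃ κ : ℂ, ∀ i, y i ^ N = κ * x i ^ N := by
    rcases alpha_or_linear hN hL hF hΓ hχ hm hE (zset x) hZn with ⟨a, ha, haZ, hwt⟩ | ⟨hZ, he⟩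
    · have hdvd : N ∣ m - wt a - N := by
        have := ha.wt_cast
        rw [ZMod.natCast_eq_natCast_iff] at this
        have h1 := (Nat.modEq_iff_dvd' (show wt a ≤ m by omega)).1 this
        exact Nat.dvd_sub h1 (dvd_refl N)
      obtain ⟨q, hq⟩ := hdvd
      have hsec : ∀ l, IsSection Γ m χ
          (mon fun i => (a i).val + N * ((if i = i0 then q else 0) + (if i = l then 1 else 0))) := by
        intro l
        apply ha.isSection hΓ.exponent
        rw [Finset.sum_add_distrib, Finset.sum_ite_eq' Finset.univ i0,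
          Finset.sum_ite_eq' Finset.univ l, if_pos (Finset.mem_univ _), if_pos (Finset.mem_univ _),
          Nat.mul_add, ← hq]
        omega
      have hev : ∀ (w : Fin L → ℂ) (l : Fin L), eval w
          (mon fun i => (a i).val + N * ((if i = i0 then q else 0) + (if i = l then 1 else 0))) =
          (∏ i, w i ^ (a i).val) * (w i0 ^ N) ^ q * w l ^ N := by
        intro w l
        rw [eval_mon]
        simp only [pow_add, Nat.mul_add, Finset.prod_mul_distrib]
        rw [← mul_assoc]
        congr 1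
        · congr 1
          rw [Finset.prod_eq_single i0 (fun j _ hj => by simp [hj]) (by simp), if_pos rfl, pow_mul]
        · rw [Finset.prod_eq_single l (fun j _ hj => by simp [hj]) (by simp), if_pos rfl, mul_one]
      have hnz : ∀ w : Fin L → ℂ, (∀ i, w i = 0 → x i = 0) → w i0 ≠ 0 →
          (∏ i, w i ^ (a i).val) * (w i0 ^ N) ^ q ≠ 0 := by
        intro w hw hw0
        refine mul_ne_zero (prod_ne_zero_of fun i hi => ?_) (pow_ne_zero _ (pow_ne_zero _ hw0))
        rw [haZ i (mem_zset.2 (hw i hi)), ZMod.val_zero]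
      have hxn := hnz x (fun i hi => hi) hi0
      have hyn := hnz y (fun i hi => (hsupp i).2 hi) hyi0
      refine ⟨lam * ((∏ i, x i ^ (a i).val) * (x i0 ^ N) ^ q) /
        ((∏ i, y i ^ (a i).val) * (y i0 ^ N) ^ q), fun l => ?_⟩
      have h1 := hlam _ (hsec l)
      rw [hev, hev] at h1
      rw [div_mul_eq_mul_div, eq_div_iff hyn, mul_assoc lam, ← h1]
      ring
    · exact linear_unique hN hL hF he hx0 hx hZ (w := fun i => y i ^ N)
        (fun j => by rw [← eval_expand_eq]; exact hy j)
        (fun i hi => by rw [(hsupp i).1 hi, zero_pow (by omega)])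
  -- normalise
  set μ := y i0 / x i0 with hμ
  have hμ0 : μ ≠ 0 := div_ne_zero hyi0 hi0
  have hμN : μ ^ N = κ := by
    rw [hμ, div_pow, hκ i0, mul_div_cancel_right₀ _ (pow_ne_zero _ hi0)]
  let ρ : Fin L → ℂ := fun i => if x i = 0 then 1 else y i / (μ * x i)
  have hρ0 : ∀ i, ρ i ≠ 0 := by
    intro i
    simp only [ρ]
    split_ifs with hi
    · exact one_ne_zero
    · exact div_ne_zero (fun h => hi ((hsupp i).2 h)) (mul_ne_zero hμ0 hi)
  have hρ : ∀ i, y i = μ * ρ i * x i := by
    intro i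
    simp only [ρ]
    split_ifs with hi
    · rw [(hsupp i).1 hi, hi, mul_zero]
    · field_simp
  have hρN : ∀ i, ρ i ^ N = 1 := by
    intro i
    simp only [ρ]
    split_ifs with hi
    · exact one_pow _
    · rw [div_pow, mul_pow, hμN, hκ i]
      have h1 : κ ≠ 0 := by rw [← hμN]; exact pow_ne_zero _ hμ0
      exact div_self (mul_ne_zero h1 (pow_ne_zero _ hi))
  have hρi0 : ρ i0 = 1 := by
    simp only [ρ]
    rw [if_neg hi0, hμ, div_mul_cancel₀ _ hi0, div_self hyi0]
  let θu : Fin L → ℂˣ := fun i => Units.mk0 (ρ i) (hρ0 i)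
  have hθN : ∀ i, θu i ^ N = 1 := by
    intro i
    apply Units.ext
    simpa [θu] using hρN i
  let θ : Tor L N := fun i => ⟨θu i, (mem_rootsOfUnity _ _).2 (hθN i)⟩
  -- the base point of the coset
  obtain ⟨a0, -, h01, h02⟩ := exists_val hN hL hF hΓ hχ ∅ (by simp) 0
  have h0 : Good Γ m χ a0 := ⟨h01, h02⟩
  have hA : ∀ a, a - a0 ∈ code hΓ.exponent → (wt a : ZMod N) = m := fun a ha =>
    ((good_iff hΓ.exponent h0).1 ha).wt_cast
  let ψ : (Fin L → ZMod N) →+ Additive ℂˣ :=
    { toFun := fun b => Additive.ofMul (pw θu b)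
      map_zero' := by rw [pw_zero]; rfl
      map_add' := fun b b' => by rw [pw_add hθN]; rfl }
  have hψ : ∀ b ∈ code hΓ.exponent, (∀ i ∈ zset x, b i = 0) → ψ b = 0 := by
    refine functional (strength hN hL hF hΓ) hN hL hn hA (basic_ineq hF hm) ψ
      (Additive.ofMul (Units.mk0 (lam / μ ^ m) (div_ne_zero hlam0 (pow_ne_zero _ hμ0))))
      (n - (zset x).card) (zset x) (by omega) ?_
    intro a ha hwt
    have hg := (good_iff hΓ.exponent h0).1 ha.1
    have hdvd : N ∣ m - wt a := by
      have := hg.wt_cast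
      rw [ZMod.natCast_eq_natCast_iff] at this
      exact (Nat.modEq_iff_dvd' hwt).1 this
    obtain ⟨q, hq⟩ := hdvd
    have hk : wt a + N * ∑ i, (if i = i0 then q else 0) = m := by
      rw [Finset.sum_ite_eq' Finset.univ i0, if_pos (Finset.mem_univ _), ← hq]
      omega
    have hsec := hg.isSection hΓ.exponent (fun i => if i = i0 then q else 0) hk
    have h1 := hlam _ hsec
    rw [eval_mon, eval_mon] at h1
    apply Additive.toMul.injective
    apply Units.ext
    simp only [ψ, AddMonoidHom.coe_mk, ZeroHom.coe_mk, toMul_ofMul, Units.val_mk0]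
    rw [eq_div_iff (pow_ne_zero _ hμ0)]
    have hxn : ∏ i, x i ^ ((a i).val + N * (if i = i0 then q else 0)) ≠ 0 := by
      refine prod_ne_zero_of fun i hi => ?_
      rw [ha.2 i (mem_zset.2 hi), ZMod.val_zero, if_neg (fun h : i = i0 => hi0 (h ▸ hi)),
        mul_zero, add_zero]
    apply mul_right_cancel₀ hxn
    rw [← h1]
    have h2 : ∀ i, y i ^ ((a i).val + N * (if i = i0 then q else 0)) =
        μ ^ ((a i).val + N * (if i = i0 then q else 0)) *
        ρ i ^ ((a i).val + N * (if i = i0 then q else 0)) *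
        x i ^ ((a i).val + N * (if i = i0 then q else 0)) := by
      intro i
      rw [hρ i, mul_pow, mul_pow]
    rw [Finset.prod_congr rfl fun i _ => h2 i, Finset.prod_mul_distrib, Finset.prod_mul_distrib,
      Finset.prod_pow_eq_pow_sum]
    have h3 : ∑ i, ((a i).val + N * (if i = i0 then q else 0)) = m := by
      rw [Finset.sum_add_distrib, ← Finset.mul_sum]
      exact hk
    have h4 : ∏ i, ρ i ^ ((a i).val + N * (if i = i0 then q else 0)) = ((pw θu a : ℂˣ) : ℂ) := by
      rw [pw]
      push_cast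
      refine Finset.prod_congr rfl fun i _ => ?_
      rw [pow_add, pow_mul, hρN i, one_pow, mul_one]
      rfl
    rw [h3, h4]
    ring
  obtain ⟨h, hh, s, hs⟩ := exists_group hΓ.exponent (zset x) θ (by
    intro b hb hbZ
    have := hψ b hb hbZ
    exact this)
  apply hxy h hh (μ * ((s⁻¹ : ℂˣ) : ℂ))
  funext i
  by_cases hi : x i = 0
  · simp [act, hρ i, hi]
  · have h1 := hs i (fun h => hi (mem_zset.1 h))
    have h2 := congrArg (fun u : ℂˣ => (u : ℂ)) h1
    simp only [θ, θu, Units.val_mk0, Units.val_mul] at h2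
    rw [hρ i, h2, Pi.smul_apply, act, smul_eq_mul]
    ring

theorem separates_tangent (hN : 2 ≤ N) (hL : L = n + c + 1) (hF : IsKummer N e F)
    (hΓ : IsFree N Γ F) (hχ : IsBundle Γ m χ) (hm : N * ∑ j, e j + 1 ≤ m + c)
    (hE : 2 ≤ ∑ j, e j) {x v : Fin L → ℂ} (hx0 : x ≠ 0)
    (hx : ∀ j, eval x (expand N (F j)) = 0) (hv : ∀ j, diffAt (expand N (F j)) x v = 0)
    (hxv : ∀ t : ℂ, v ≠ t • x) :
    ∃ g, IsSection Γ m χ g ∧ eval x g = 0 ∧ diffAt g x v ≠ 0 := by
  classical
  by_contra hcon
  push Not at hcon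
  obtain ⟨g0, hg0, hg0x⟩ := bpf hN hL hF hΓ hχ hm hx0 hx
  obtain ⟨lam, hlam⟩ : ∃ lam : ℂ, ∀ g, IsSection Γ m χ g → diffAt g x v = lam * eval x g := by
    refine ⟨diffAt g0 x v / eval x g0, fun g hg => ?_⟩
    have h1 := hcon _ (hg.sub_C_mul hg0 (eval x g / eval x g0)) (by
      rw [map_sub, map_mul, eval_C, div_mul_cancel₀ _ hg0x, sub_self])
    rw [diffAt_sub, diffAt_C_mul, sub_eq_zero] at h1
    rw [h1]
    ring
  have hsupp : ∀ i, x i = 0 → v i = 0 := by
    intro i hi
    by_contra hvi
    obtain ⟨g, hg, hg'⟩ := exists_section_mul hN hL hF hΓ hχ hm hx0 hx i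
    have := hlam _ hg
    rw [diffAt_mul, map_mul, eval_X, diffAt_X, hi, zero_mul, zero_mul, mul_zero, add_zero] at this
    exact mul_ne_zero hvi hg' this
  obtain ⟨ν, hν⟩ : ∃ ν : Fin L → ℂ, ∀ i, v i = ν i * x i := by
    refine ⟨fun i => v i / x i, fun i => ?_⟩
    by_cases hi : x i = 0
    · rw [hsupp i hi, hi, mul_zero]
    · rw [div_mul_cancel₀ _ hi]
  have hv' : v = fun i => ν i * x i := funext hν
  have hZn : (zset x).card ≤ n := hF.card_zero_le hN hL hx0 hx fun i hi => mem_zset.1 hi
  obtain ⟨i0, hi0⟩ := Function.ne_iff.1 hx0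
  have hi0 : x i0 ≠ 0 := hi0
  have hN0 : (N : ℂ) ≠ 0 := by exact_mod_cast (by omega : N ≠ 0)
  obtain ⟨κ, hκ⟩ : ∃ κ : ℂ, ∀ i, x i ≠ 0 → ν i = κ := by
    rcases alpha_or_linear hN hL hF hΓ hχ hm hE (zset x) hZn with ⟨a, ha, haZ, hwt⟩ | ⟨hZ, he⟩
    · have hdvd : N ∣ m - wt a - N := by
        have := ha.wt_cast
        rw [ZMod.natCast_eq_natCast_iff] at this
        have h1 := (Nat.modEq_iff_dvd' (show wt a ≤ m by omega)).1 this
        exact Nat.dvd_sub h1 (dvd_refl N)
      obtain ⟨q, hq⟩ := hdvd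
      refine ⟨(lam - (∑ i, ((a i).val : ℂ) * ν i) - N * q * ν i0) / N, fun l hl => ?_⟩
      have hsec : IsSection Γ m χ
          (mon fun i => (a i).val + N * ((if i = i0 then q else 0) + (if i = l then 1 else 0))) := by
        apply ha.isSection hΓ.exponent
        rw [Finset.sum_add_distrib, Finset.sum_ite_eq' Finset.univ i0,
          Finset.sum_ite_eq' Finset.univ l, if_pos (Finset.mem_univ _), if_pos (Finset.mem_univ _),
          Nat.mul_add, ← hq]
        omega
      have h1 := hlam _ hsec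
      rw [hv', diffAt_mon] at h1
      have h2 : eval x (mon fun i => (a i).val +
          N * ((if i = i0 then q else 0) + (if i = l then 1 else 0))) ≠ 0 := by
        rw [eval_mon]
        refine prod_ne_zero_of fun i hi => ?_
        rw [haZ i (mem_zset.2 hi), ZMod.val_zero, if_neg (fun h : i = i0 => hi0 (h ▸ hi)),
          if_neg (fun h : i = l => hl (h ▸ hi)), add_zero, mul_zero, add_zero]
      have h3 := mul_right_cancel₀ h2 h1
      rw [eq_div_iff hN0, ← h3]
      have h4 : ∀ i, (((a i).val + N * ((if i = i0 then q else 0) + (if i = l then 1 else 0)) : ℕ)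
          : ℂ) * ν i = ((a i).val : ℂ) * ν i + (if i = i0 then (N : ℂ) * q * ν i else 0) +
          (if i = l then (N : ℂ) * ν i else 0) := by
        intro i
        push_cast
        split_ifs <;> ring
      rw [Finset.sum_congr rfl fun i _ => h4 i, Finset.sum_add_distrib, Finset.sum_add_distrib,
        Finset.sum_ite_eq' Finset.univ i0, Finset.sum_ite_eq' Finset.univ l,
        if_pos (Finset.mem_univ _), if_pos (Finset.mem_univ _)]
      ring
    · obtain ⟨κ, hκ⟩ := linear_unique hN hL hF he hx0 hx hZ (w := fun i => ν i * x i ^ N)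
        (fun j => by
          have h1 := hv j
          rw [hv', diffAt_expand] at h1
          have h2 := (mul_eq_zero.1 h1).resolve_left hN0
          have h3 : (F j).IsHomogeneous 1 := by
            have := hF.homogeneous j
            rwa [he j] at this
          rwa [diffAt_linear h3] at h2)
        (fun i hi => by simp only [hi]; rw [zero_pow (by omega), mul_zero])
      exact ⟨κ, fun i hi => mul_right_cancel₀ (pow_ne_zero N hi) (hκ i)⟩
  apply hxv κ
  funext i
  rw [Pi.smul_apply, smul_eq_mul, hν i]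
  by_cases hi : x i = 0
  · rw [hi, mul_zero, mul_zero]
  · rw [hκ i hi]

theorem veryAmple (hN : 2 ≤ N) (hL : L = n + c + 1) (hn : 1 ≤ n) (hF : IsKummer N e F)
    (hΓ : IsFree N Γ F) (hχ : IsBundle Γ m χ) (hm : N * ∑ j, e j + 1 ≤ m + c)
    (hE : 2 ≤ ∑ j, e j) : VeryAmple N Γ F m χ where
  base_point_free _ hx0 hx := bpf hN hL hF hΓ hχ hm hx0 hx
  separates_points _ _ hx0 hy0 hx hy hxy :=
    separates hN hL hn hF hΓ hχ hm hE hx0 hy0 hx hy hxy
  separates_tangents _ _ hx0 hx hv hxv :=
    separates_tangent hN hL hF hΓ hχ hm hE hx0 hx hv hxv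

end Pool.Agent.Helper10.KC
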